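import Pool.Agent.H84.RCQ.C5

set_option autoImplicit false

namespace Pool.Agent.H84.RCQ.K5F

open Pool.Agent.H39.RC Pool.Agent.H6.RCQ Pool.Agent.H84.RCQ.Tool
open Classical

variable {V : Type} {G : SimpleGraph V}

/-- the main step: connectors avoiding `t 3`, `t 4` -/
lemma step {x t0 t1 t2 t3 t4 u v p' g4 q q' h4 : V} (C : C5 G x t0 t1 t2 t3 t4)
    (Fu : Far G x t0 t1 t2 t3 t4 u) (Fv : Far G x t0 t1 t2 t3 t4 v)
    (nuv : u ≠ v) (auv : ¬ G.Adj u v) (auv' : ¬ G.Adj v u)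
    (ut1 : G.Adj u t1)
    (b1 : Bad G x u v t1) (b3 : Bad G x u v t3)
    (hp : Cn G x u t3 p') (hg : Cn G x u t4 g4) (hq : Cn G x v t1 q)
    (hq' : Cn G x v t3 q') (hh : Cn G x v t4 h4) (m1 : q' ≠ t4) (m2 : h4 ≠ t3) : False := by
  obtain ⟨w1, w2, w3, w4, w5⟩ := Fu.w
  have ut3 : ¬ G.Adj u t3 := fun e => w3 ⟨ut1, e⟩
  have ut4 : ¬ G.Adj u t4 := fun e => w4 ⟨ut1, e⟩
  have x1 := C.n1; have x2 := C.n3; have x3 := C.n4
  have y1 := C.n13; have y2 := C.n14; have y3 := C.n34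
  have u1 := Fu.nx; have u2 := Fu.n1; have u3 := Fu.n3; have u4 := Fu.n4
  have v1 := Fv.nx; have v2 := Fv.n1; have v3 := Fv.n3; have v4 := Fv.n4
  have i1 : q ≠ u := l1 hq.c nuv auv'
  have i2 : q' ≠ u := l1 hq'.c nuv auv'
  have i3 : h4 ≠ u := l1 hh.c nuv auv'
  have i4 : p' ≠ v := l1 hp.c nuv.symm auv
  have i5 : g4 ≠ v := l1 hg.c nuv.symm auv
  have pv : ¬ G.Adj v p' := bad_no b3 hp auv'
  have qu : ¬ G.Adj u q := bad_no (Bad.swap b1) hq auv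
  have qu' : ¬ G.Adj u q' := bad_no (Bad.swap b3) hq' auv
  have i6 : q ≠ p' := l1 hq.c i4 pv
  have i7 : q' ≠ p' := l1 hq'.c i4 pv
  have i8 : h4 ≠ p' := l1 hh.c i4 pv
  have i9 : g4 ≠ q := l1 hg.c i1 qu
  have i10 : g4 ≠ q' := l1 hg.c i2 qu'
  have j1 : p' ≠ t1 := l2 hp.a C.e13
  have j2 := hp.nt
  have j3 : p' ≠ t4 := l1 hp.c u4.symm ut4
  have j4 : g4 ≠ t1 := l2 hg.a C.e14
  have j5 : g4 ≠ t3 := l1 hg.c u3.symm ut3
  have j6 := hg.nt
  have j7 := hq.nt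
  have j8 : q ≠ t3 := l2 hq.a C.e31
  have j9 : q ≠ t4 := l2 hq.a C.e41
  have j10 : q' ≠ t1 := l2 hq'.a C.e13
  have j11 := hq'.nt
  have j12 : h4 ≠ t1 := l2 hh.a C.e14
  have j13 := hh.nt
  have k1 := hp.nx
  have k2 := hg.nx
  have k3 := hq.nx
  have k4 := hq'.nx
  have k5 := hh.nx
  by_cases hgh : g4 = h4
  · subst hgh
    have av : G.Adj v g4 := by
      rcases hh.c with e | e
      · exact absurd e i5
      · exact e
    have i11 : g4 ≠ u := by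
      rintro e
      exact auv' (e ▸ av)
    have au : G.Adj u g4 := by
      rcases hg.c with e | e
      · exact absurd e i11
      · exact e
    have i12 : g4 ≠ p' := fun e => pv (e ▸ av)
    refine k33x C.k33 (x := x) (u := u) (a1 := p') (a2 := u) (a3 := u) (v := v) (b1 := q)
      (b2 := q') (b3 := v) (c0 := t1) (c1 := t3) (c2 := t4) (d := g4) ?_ ?_ (Or.inr hg.a')
      ?_ ?_ ?_ ?_ y1 C.a1 C.a3 C.a4 ⟨u, by simp, ut1⟩ ⟨p', by simp, hp.a⟩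
      ⟨u, by simp, g4, by simp, au⟩ ⟨q, by simp, hq.a⟩ ⟨q', by simp, hq'.a⟩
      ⟨v, by simp, g4, by simp, av⟩
    · simp only [List.mem_cons, List.not_mem_nil, or_false, forall_eq_or_imp, forall_eq]
      exact ⟨hp.c, by simp, by simp⟩
    · simp only [List.mem_cons, List.not_mem_nil, or_false, forall_eq_or_imp, forall_eq]
      exact ⟨hq.c, hq'.c, by simp⟩
    all_goals
      simp only [List.mem_cons, List.not_mem_nil, or_false, forall_eq_or_imp, forall_eq]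
      constructorm* _ ∧ _ <;> first | assumption | exact Ne.symm (by assumption)
  · refine k33x C.k33 (x := x) (u := u) (a1 := p') (a2 := g4) (a3 := u) (v := v) (b1 := q)
      (b2 := q') (b3 := h4) (c0 := t1) (c1 := t3) (c2 := t4) (d := t4) ?_ ?_ (Or.inl rfl)
      ?_ ?_ ?_ ?_ y1 C.a1 C.a3 C.a4 ⟨u, by simp, ut1⟩ ⟨p', by simp, hp.a⟩
      ⟨g4, by simp, t4, by simp, hg.a⟩ ⟨q, by simp, hq.a⟩ ⟨q', by simp, hq'.a⟩
      ⟨h4, by simp, t4, by simp, hh.a⟩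
    · simp only [List.mem_cons, List.not_mem_nil, or_false, forall_eq_or_imp, forall_eq]
      exact ⟨hp.c, hg.c, by simp⟩
    · simp only [List.mem_cons, List.not_mem_nil, or_false, forall_eq_or_imp, forall_eq]
      exact ⟨hq.c, hq'.c, hh.c⟩
    all_goals
      simp only [List.mem_cons, List.not_mem_nil, or_false, forall_eq_or_imp, forall_eq]
      constructorm* _ ∧ _ <;> first | assumption | exact Ne.symm (by assumption)

/-- case 1: `v` is adjacent to `t 3` and every connector to `t 4` is `t 3` -/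
lemma case1 {x t0 t1 t2 t3 t4 u v p' g4 q h0 h2 : V} (C : C5 G x t0 t1 t2 t3 t4)
    (Fu : Far G x t0 t1 t2 t3 t4 u) (Fv : Far G x t0 t1 t2 t3 t4 v)
    (nuv : u ≠ v) (auv : ¬ G.Adj u v) (auv' : ¬ G.Adj v u)
    (ut1 : G.Adj u t1) (vt1 : ¬ G.Adj v t1) (vt3 : G.Adj v t3) (vt4 : ¬ G.Adj v t4)
    (b1 : Bad G x u v t1) (b3 : Bad G x u v t3)
    (hp : Cn G x u t3 p') (hg : Cn G x u t4 g4) (hq : Cn G x v t1 q)
    (hh0 : Cn G x v t0 h0) (hh2 : Cn G x v t2 h2)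
    (all : ∀ c, Cn G x v t4 c → c = t3) : False := by
  obtain ⟨w1, w2, w3, w4, w5⟩ := Fu.w
  obtain ⟨w1', w2', w3', w4', w5'⟩ := Fv.w
  have ut3 : ¬ G.Adj u t3 := fun e => w3 ⟨ut1, e⟩
  have ut4 : ¬ G.Adj u t4 := fun e => w4 ⟨ut1, e⟩
  have vt0 : ¬ G.Adj v t0 := fun e => w2' ⟨e, vt3⟩
  have x0 := C.n0; have x1 := C.n1; have x2 := C.n2; have x3 := C.n3; have x4 := C.n4
  have y01 := C.n01; have y02 := C.n02; have y03 := C.n03; have y04 := C.n04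
  have y12 := C.n12; have y13 := C.n13; have y14 := C.n14; have y23 := C.n23
  have y24 := C.n24; have y34 := C.n34
  have u0 := Fu.n0; have u1 := Fu.n1; have u2 := Fu.n2; have u3 := Fu.n3; have u4 := Fu.n4
  have v0 := Fv.n0; have v1 := Fv.n1; have v2 := Fv.n2; have v3 := Fv.n3; have v4 := Fv.n4
  have ux := Fu.nx; have vx := Fv.nx
  have k1 := hp.nx; have k2 := hg.nx; have k3 := hq.nx; have k4 := hh0.nx; have k5 := hh2.nx
  have pv : ¬ G.Adj v p' := bad_no b3 hp auv'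
  have qu : ¬ G.Adj u q := bad_no (Bad.swap b1) hq auv
  have i1 : q ≠ u := l1 hq.c nuv auv'
  have i2 : h0 ≠ u := l1 hh0.c nuv auv'
  have i3 : h2 ≠ u := l1 hh2.c nuv auv'
  have i4 : p' ≠ v := l1 hp.c nuv.symm auv
  have i5 : g4 ≠ v := l1 hg.c nuv.symm auv
  have g43 : g4 ≠ t3 := l1 hg.c u3.symm ut3
  have f1 : h0 ≠ t1 := l1 hh0.c v1.symm vt1
  have f3 : h0 ≠ t4 := l1 hh0.c v4.symm vt4
  -- `g4` is not adjacent to `v`
  have vg : ¬ G.Adj v g4 := fun e =>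
    g43 (all g4 ⟨hg.nx, hg.nt, Or.inr e, Or.inr e.symm, hg.a, hg.a'⟩)
  have e1 : g4 = t0 := by
    by_contra hne
    have f2 : h0 ≠ g4 := l1 hh0.c i5 vg
    have f4 : h2 ≠ t1 := l1 hh2.c v1.symm vt1
    have f5 : h2 ≠ g4 := l1 hh2.c i5 vg
    have f6 : h2 ≠ t4 := l1 hh2.c v4.symm vt4
    have f7 : g4 ≠ t2 := l2 hg.a C.e24
    have f8 : g4 ≠ t0 := hne
    refine meetF C.r0124 (p := h0) (q := v) (r := h2) (p' := u) (q' := u) (r' := g4)
      (Or.inr hh0.a') hh0.c' hh2.d (Or.inr hh2.a) (Or.inr ut1.symm) (Or.inl rfl) hg.d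
      (Or.inr hg.a) ?_ ?_
    all_goals
      simp only [List.mem_cons, List.not_mem_nil, or_false, forall_eq_or_imp, forall_eq]
      constructorm* _ ∧ _ <;> first | assumption | exact Ne.symm (by assumption)
  subst e1
  have ut0 : G.Adj u g4 := by
    rcases hg.c with e | e
    · exact absurd e.symm u0
    · exact e
  have a04 : G.Adj g4 t4 := hg.a
  have i6 : q ≠ p' := l1 hq.c i4 pv
  have i7 : h0 ≠ p' := l1 hh0.c i4 pv
  have j1 : p' ≠ t1 := l2 hp.a C.e13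
  have j2 := hp.nt
  have j3 : p' ≠ t4 := l1 hp.c u4.symm ut4
  have j4 : p' ≠ g4 := l2 hp.a C.e03
  have j5 := hq.nt
  have j6 : q ≠ t3 := l2 hq.a C.e31
  have j7 : q ≠ t4 := l2 hq.a C.e41
  have j8 : q ≠ g4 := l1 hq.c v0.symm vt0
  have j9 := hh0.nt
  have j10 : h0 ≠ t3 := l2 hh0.a C.e30
  refine k33x C.k33 (x := x) (u := u) (a1 := p') (a2 := u) (a3 := u) (v := v) (b1 := q)
    (b2 := h0) (b3 := v) (c0 := t1) (c1 := t3) (c2 := g4) (d := t4) ?_ ?_ (Or.inr a04)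
    ?_ ?_ ?_ ?_ y13 C.a1 C.a3 C.a0 ⟨u, by simp, ut1⟩ ⟨p', by simp, hp.a⟩
    ⟨u, by simp, g4, by simp, ut0⟩ ⟨q, by simp, hq.a⟩ ⟨v, by simp, vt3⟩
    ⟨h0, by simp, g4, by simp, hh0.a⟩
  · simp only [List.mem_cons, List.not_mem_nil, or_false, forall_eq_or_imp, forall_eq]
    exact ⟨hp.c, by simp, by simp⟩
  · simp only [List.mem_cons, List.not_mem_nil, or_false, forall_eq_or_imp, forall_eq]
    exact ⟨hq.c, hh0.c, by simp⟩
  all_goals
    simp only [List.mem_cons, List.not_mem_nil, or_false, forall_eq_or_imp, forall_eq]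
    constructorm* _ ∧ _ <;> first | assumption | exact Ne.symm (by assumption)

/-- case 2: `v` is adjacent to `t 4` and not to `t 3` -/
lemma case2 {x t0 t1 t2 t3 t4 u v p' g4 q h0 h2 : V} (C : C5 G x t0 t1 t2 t3 t4)
    (Fu : Far G x t0 t1 t2 t3 t4 u) (Fv : Far G x t0 t1 t2 t3 t4 v)
    (nuv : u ≠ v) (auv : ¬ G.Adj u v) (auv' : ¬ G.Adj v u) (t10 : G.Adj t1 t0)
    (t12 : G.Adj t1 t2) (t34 : G.Adj t3 t4)
    (ut1 : G.Adj u t1) (vt1 : ¬ G.Adj v t1) (vt3 : ¬ G.Adj v t3) (vt4 : G.Adj v t4)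
    (b1 : Bad G x u v t1) (b3 : Bad G x u v t3)
    (hp : Cn G x u t3 p') (hg : Cn G x u t4 g4) (hq : Cn G x v t1 q)
    (hh0 : Cn G x v t0 h0) (hh2 : Cn G x v t2 h2) : False := by
  obtain ⟨w1, w2, w3, w4, w5⟩ := Fu.w
  obtain ⟨w1', w2', w3', w4', w5'⟩ := Fv.w
  have ut3 : ¬ G.Adj u t3 := fun e => w3 ⟨ut1, e⟩
  have ut4 : ¬ G.Adj u t4 := fun e => w4 ⟨ut1, e⟩
  have vt2 : ¬ G.Adj v t2 := fun e => w5' ⟨e, vt4⟩
  have x0 := C.n0; have x1 := C.n1; have x2 := C.n2; have x3 := C.n3; have x4 := C.n4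
  have y01 := C.n01; have y02 := C.n02; have y03 := C.n03; have y04 := C.n04
  have y12 := C.n12; have y13 := C.n13; have y14 := C.n14; have y23 := C.n23
  have y24 := C.n24; have y34 := C.n34
  have u0 := Fu.n0; have u1 := Fu.n1; have u2 := Fu.n2; have u3 := Fu.n3; have u4 := Fu.n4
  have v0 := Fv.n0; have v1 := Fv.n1; have v2 := Fv.n2; have v3 := Fv.n3; have v4 := Fv.n4
  have ux := Fu.nx; have vx := Fv.nx
  have k1 := hp.nx; have k2 := hg.nx; have k3 := hq.nx; have k4 := hh0.nx; have k5 := hh2.nx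
  have pv : ¬ G.Adj v p' := bad_no b3 hp auv'
  have qu : ¬ G.Adj u q := bad_no (Bad.swap b1) hq auv
  have i1 : q ≠ u := l1 hq.c nuv auv'
  have i2 : h0 ≠ u := l1 hh0.c nuv auv'
  have i3 : h2 ≠ u := l1 hh2.c nuv auv'
  have i4 : p' ≠ v := l1 hp.c nuv.symm auv
  have i5 : g4 ≠ v := l1 hg.c nuv.symm auv
  have f1 : h0 ≠ t1 := l1 hh0.c v1.symm vt1
  have f2 : h2 ≠ t1 := l1 hh2.c v1.symm vt1
  have f3 : h0 ≠ t3 := l1 hh0.c v3.symm vt3
  have f4 : h2 ≠ t3 := l1 hh2.c v3.symm vt3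
  have i6 : q ≠ p' := l1 hq.c i4 pv
  have i7 : h0 ≠ p' := l1 hh0.c i4 pv
  have i8 : h2 ≠ p' := l1 hh2.c i4 pv
  have j1 : p' ≠ t1 := l2 hp.a C.e13
  have j4 : p' ≠ t0 := l2 hp.a C.e03
  have e1 : p' = t2 := by
    by_contra hne
    have f8 : p' ≠ t2 := hne
    refine meetF C.r0123 (p := h0) (q := v) (r := h2) (p' := u) (q' := u) (r' := p')
      (Or.inr hh0.a') hh0.c' hh2.d (Or.inr hh2.a) (Or.inr ut1.symm) (Or.inl rfl) hp.d
      (Or.inr hp.a) ?_ ?_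
    all_goals
      simp only [List.mem_cons, List.not_mem_nil, or_false, forall_eq_or_imp, forall_eq]
      constructorm* _ ∧ _ <;> first | assumption | exact Ne.symm (by assumption)
  subst e1
  have ut2 : G.Adj u p' := by
    rcases hp.c with e | e
    · exact absurd e.symm u2
    · exact e
  have a23 : G.Adj p' t3 := hp.a
  -- `g4` is not adjacent to `v` when it is adjacent to `t 2`
  have g1 : g4 ≠ t1 := l2 hg.a C.e14
  have g2 : g4 ≠ p' := l2 hg.a C.e24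
  have g3 : g4 ≠ t3 := l1 hg.c u3.symm ut3
  have g4' := hg.nt
  have g5 : g4 ≠ q := l1 hg.c i1 qu
  have g6 : g4 ≠ h2 := by
    rintro rfl
    have ag : G.Adj g4 p' := hh2.a
    have e0 : g4 ≠ t0 := by
      rintro rfl
      exact C.e02 ag
    exact (C.w g4 hg.nx e0 g1 g2 g3 g4').2.2.2.2 ⟨ag, hg.a⟩
  have j5 := hq.nt
  have j6 : q ≠ t3 := l2 hq.a C.e31
  have j7 : q ≠ t4 := l2 hq.a C.e41
  have j8 : q ≠ p' := l1 hq.c v2.symm vt2
  have j9 := hh2.nt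
  have j10 : h2 ≠ t4 := l2 hh2.a C.e42
  refine k33x C.k33 (x := x) (u := u) (a1 := g4) (a2 := u) (a3 := u) (v := v) (b1 := q)
    (b2 := h2) (b3 := v) (c0 := t1) (c1 := t4) (c2 := p') (d := t3) ?_ ?_ (Or.inr a23)
    ?_ ?_ ?_ ?_ y14 C.a1 C.a4 C.a2 ⟨u, by simp, ut1⟩ ⟨g4, by simp, hg.a⟩
    ⟨u, by simp, p', by simp, ut2⟩ ⟨q, by simp, hq.a⟩ ⟨v, by simp, vt4⟩
    ⟨h2, by simp, p', by simp, hh2.a⟩
  · simp only [List.mem_cons, List.not_mem_nil, or_false, forall_eq_or_imp, forall_eq]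
    exact ⟨hg.c, by simp, by simp⟩
  · simp only [List.mem_cons, List.not_mem_nil, or_false, forall_eq_or_imp, forall_eq]
    exact ⟨hq.c, hh2.c, by simp⟩
  all_goals
    simp only [List.mem_cons, List.not_mem_nil, or_false, forall_eq_or_imp, forall_eq]
    constructorm* _ ∧ _ <;> first | assumption | exact Ne.symm (by assumption)

theorem k5f : K5FStmt := by
  intro V G R x t u v K b1 b3 t34 ut1
  have C := c5_of K.toW5
  have Fu := far_of C K.mu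
  have Fv := far_of C K.mv
  have hm : ∀ i < 5, t i ∈ D G R x := K.circ.mem
  have cu : ∀ i < 5, ∃ y, Cn G x u (t i) y := fun i hi => cn_exists K.s5.lf K.mu (hm i hi)
  have cv : ∀ i < 5, ∃ y, Cn G x v (t i) y := fun i hi => cn_exists K.s5.lf K.mv (hm i hi)
  have auv' : ¬ G.Adj v u := fun e => K.auv e.symm
  have vt1 : ¬ G.Adj v (t 1) := fun e => b1 (t 1) C.n1.symm ut1 e (Or.inl rfl)
  obtain ⟨p', hp⟩ := cu 3 (by omega)
  obtain ⟨g4, hg⟩ := cu 4 (by omega)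
  obtain ⟨q, hq⟩ := cv 1 (by omega)
  obtain ⟨h0, hh0⟩ := cv 0 (by omega)
  obtain ⟨h2, hh2⟩ := cv 2 (by omega)
  by_cases vt3 : G.Adj v (t 3)
  · by_cases vt4 : G.Adj v (t 4)
    · exact step C Fu Fv K.nuv K.auv auv' ut1 b1 b3 hp hg hq (cn_self Fv.nx vt3)
        (cn_self Fv.nx vt4) Fv.n4 Fv.n3
    · by_cases hall : ∀ c, Cn G x v (t 4) c → c = t 3
      · exact case1 C Fu Fv K.nuv K.auv auv' ut1 vt1 vt3 vt4 b1 b3 hp hg hq hh0 hh2 hall
      · push Not at hall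
        obtain ⟨h4, hh4, hne⟩ := hall
        exact step C Fu Fv K.nuv K.auv auv' ut1 b1 b3 hp hg hq (cn_self Fv.nx vt3) hh4 Fv.n4 hne
  · by_cases vt4 : G.Adj v (t 4)
    · exact case2 C Fu Fv K.nuv K.auv auv' K.c10 K.c12 t34 ut1 vt1 vt3 vt4 b1 b3 hp hg hq hh0 hh2
    · obtain ⟨q', hq'⟩ := cv 3 (by omega)
      obtain ⟨h4, hh4⟩ := cv 4 (by omega)
      exact step C Fu Fv K.nuv K.auv auv' ut1 b1 b3 hp hg hq hq' hh4
        (l1 hq'.c Fv.n4.symm vt4) (l1 hh4.c Fv.n3.symm vt3)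

end Pool.Agent.H84.RCQ.K5F
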