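import Pool.Agent.H84.RCQ.C5

set_option autoImplicit false

namespace Pool.Agent.H84.RCQ.K5G

open Pool.Agent.H39.RC Pool.Agent.H6.RCQ Pool.Agent.H84.RCQ.Tool
open Classical

variable {V : Type} {G : SimpleGraph V}

/-- the main step: connectors to `t 1` avoiding `t 0` -/
lemma step {x t0 t1 t2 t3 t4 u v p p' g0 q q' h0 : V} (C : C5 G x t0 t1 t2 t3 t4)
    (Fu : Far G x t0 t1 t2 t3 t4 u) (Fv : Far G x t0 t1 t2 t3 t4 v)
    (nuv : u ≠ v) (auv : ¬ G.Adj u v) (auv' : ¬ G.Adj v u)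
    (b1 : Bad G x u v t1) (b3 : Bad G x u v t3)
    (ut1 : ¬ G.Adj u t1) (vt1 : ¬ G.Adj v t1)
    (hp1 : Cn G x u t1 p) (hp : Cn G x u t3 p') (hg : Cn G x u t0 g0) (hq : Cn G x v t1 q)
    (hq' : Cn G x v t3 q') (hh : Cn G x v t0 h0) (m1 : p ≠ t0) (m2 : q ≠ t0) : False := by
  have x0 := C.n0; have x1 := C.n1; have x2 := C.n2; have x3 := C.n3; have x4 := C.n4
  have y01 := C.n01; have y02 := C.n02; have y03 := C.n03; have y04 := C.n04
  have y12 := C.n12; have y13 := C.n13; have y14 := C.n14; have y23 := C.n23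
  have y24 := C.n24; have y34 := C.n34
  have u0 := Fu.n0; have u1 := Fu.n1; have u2 := Fu.n2; have u3 := Fu.n3; have u4 := Fu.n4
  have v0 := Fv.n0; have v1 := Fv.n1; have v2 := Fv.n2; have v3 := Fv.n3; have v4 := Fv.n4
  have ux := Fu.nx; have vx := Fv.nx
  have k1 := hp.nx; have k2 := hg.nx; have k3 := hq.nx; have k4 := hq'.nx; have k5 := hh.nx
  have k6 := hp1.nx
  have i1 : q ≠ u := l1 hq.c nuv auv'
  have i2 : q' ≠ u := l1 hq'.c nuv auv'
  have i3 : h0 ≠ u := l1 hh.c nuv auv'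
  have i4 : p' ≠ v := l1 hp.c nuv.symm auv
  have i5 : g0 ≠ v := l1 hg.c nuv.symm auv
  have i5' : p ≠ v := l1 hp1.c nuv.symm auv
  have pv : ¬ G.Adj v p' := bad_no b3 hp auv'
  have pv1 : ¬ G.Adj v p := bad_no b1 hp1 auv'
  have qu : ¬ G.Adj u q := bad_no (Bad.swap b1) hq auv
  have qu' : ¬ G.Adj u q' := bad_no (Bad.swap b3) hq' auv
  have i6 : q ≠ p' := l1 hq.c i4 pv
  have i7 : q' ≠ p' := l1 hq'.c i4 pv
  have i8 : h0 ≠ p' := l1 hh.c i4 pv
  have i6' : q ≠ p := l1 hq.c i5' pv1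
  have i7' : q' ≠ p := l1 hq'.c i5' pv1
  have i8' : h0 ≠ p := l1 hh.c i5' pv1
  have i9 : g0 ≠ q := l1 hg.c i1 qu
  have i10 : g0 ≠ q' := l1 hg.c i2 qu'
  have j1 : p' ≠ t1 := l2 hp.a C.e13
  have j2 := hp.nt
  have j3 : p' ≠ t0 := l2 hp.a C.e03
  have j4 := hp1.nt
  have j5 : p ≠ t3 := l2 hp1.a C.e31
  have j6 := hg.nt
  have j7 : g0 ≠ t1 := l1 hg.c u1.symm ut1
  have j8 : g0 ≠ t3 := l2 hg.a C.e30
  have j9 := hq.nt
  have j10 : q ≠ t3 := l2 hq.a C.e31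
  have j11 := hq'.nt
  have j12 : q' ≠ t1 := l2 hq'.a C.e13
  have j13 : q' ≠ t0 := l2 hq'.a C.e03
  have j14 := hh.nt
  have j15 : h0 ≠ t1 := l1 hh.c v1.symm vt1
  have j16 : h0 ≠ t3 := l2 hh.a C.e30
  by_cases hgh : g0 = h0
  · subst hgh
    have av : G.Adj v g0 := by
      rcases hh.c with e | e
      · exact absurd e i5
      · exact e
    have i11 : g0 ≠ u := by
      rintro e
      exact auv' (e ▸ av)
    have au : G.Adj u g0 := by
      rcases hg.c with e | e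
      · exact absurd e i11
      · exact e
    refine k33x C.k33 (x := x) (u := u) (a1 := p) (a2 := p') (a3 := u) (v := v) (b1 := q)
      (b2 := q') (b3 := v) (c0 := t1) (c1 := t3) (c2 := t0) (d := g0) ?_ ?_ (Or.inr hg.a')
      ?_ ?_ ?_ ?_ y13 C.a1 C.a3 C.a0 ⟨p, by simp, hp1.a⟩ ⟨p', by simp, hp.a⟩
      ⟨u, by simp, g0, by simp, au⟩ ⟨q, by simp, hq.a⟩ ⟨q', by simp, hq'.a⟩
      ⟨v, by simp, g0, by simp, av⟩
    · simp only [List.mem_cons, List.not_mem_nil, or_false, forall_eq_or_imp, forall_eq]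
      exact ⟨hp1.c, hp.c, by simp⟩
    · simp only [List.mem_cons, List.not_mem_nil, or_false, forall_eq_or_imp, forall_eq]
      exact ⟨hq.c, hq'.c, by simp⟩
    all_goals
      simp only [List.mem_cons, List.not_mem_nil, or_false, forall_eq_or_imp, forall_eq]
      constructorm* _ ∧ _ <;> first | assumption | exact Ne.symm (by assumption)
  · refine k33x C.k33 (x := x) (u := u) (a1 := p) (a2 := p') (a3 := g0) (v := v) (b1 := q)
      (b2 := q') (b3 := h0) (c0 := t1) (c1 := t3) (c2 := t0) (d := t0) ?_ ?_ (Or.inl rfl)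
      ?_ ?_ ?_ ?_ y13 C.a1 C.a3 C.a0 ⟨p, by simp, hp1.a⟩ ⟨p', by simp, hp.a⟩
      ⟨g0, by simp, t0, by simp, hg.a⟩ ⟨q, by simp, hq.a⟩ ⟨q', by simp, hq'.a⟩
      ⟨h0, by simp, t0, by simp, hh.a⟩
    · simp only [List.mem_cons, List.not_mem_nil, or_false, forall_eq_or_imp, forall_eq]
      exact ⟨hp1.c, hp.c, hg.c⟩
    · simp only [List.mem_cons, List.not_mem_nil, or_false, forall_eq_or_imp, forall_eq]
      exact ⟨hq.c, hq'.c, hh.c⟩
    all_goals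
      simp only [List.mem_cons, List.not_mem_nil, or_false, forall_eq_or_imp, forall_eq]
      constructorm* _ ∧ _ <;> first | assumption | exact Ne.symm (by assumption)

/-- all connectors of `u` to `t 1` are `t 0`, and `v` is adjacent to `t 3` -/
lemma case1 {x t0 t1 t2 t3 t4 u v p' q g2 g4 h0 : V} (C : C5 G x t0 t1 t2 t3 t4)
    (Fu : Far G x t0 t1 t2 t3 t4 u) (Fv : Far G x t0 t1 t2 t3 t4 v)
    (nuv : u ≠ v) (auv : ¬ G.Adj u v) (auv' : ¬ G.Adj v u)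
    (b1 : Bad G x u v t1) (b3 : Bad G x u v t3)
    (ut1 : ¬ G.Adj u t1) (vt1 : ¬ G.Adj v t1) (ut0 : G.Adj u t0) (ut2 : ¬ G.Adj u t2)
    (vt0 : ¬ G.Adj v t0) (vt3 : G.Adj v t3)
    (hp : Cn G x u t3 p') (hg2 : Cn G x u t2 g2) (hg4 : Cn G x u t4 g4) (hq : Cn G x v t1 q)
    (hh : Cn G x v t0 h0) : False := by
  obtain ⟨w1, w2, w3, w4, w5⟩ := Fu.w
  have ut3 : ¬ G.Adj u t3 := fun e => w2 ⟨ut0, e⟩
  have x0 := C.n0; have x1 := C.n1; have x2 := C.n2; have x3 := C.n3; have x4 := C.n4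
  have y01 := C.n01; have y02 := C.n02; have y03 := C.n03; have y04 := C.n04
  have y12 := C.n12; have y13 := C.n13; have y14 := C.n14; have y23 := C.n23
  have y24 := C.n24; have y34 := C.n34
  have u0 := Fu.n0; have u1 := Fu.n1; have u2 := Fu.n2; have u3 := Fu.n3; have u4 := Fu.n4
  have v0 := Fv.n0; have v1 := Fv.n1; have v2 := Fv.n2; have v3 := Fv.n3; have v4 := Fv.n4
  have ux := Fu.nx; have vx := Fv.nx
  have k1 := hp.nx; have k2 := hg2.nx; have k3 := hq.nx; have k4 := hg4.nx; have k5 := hh.nx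
  have i1 : q ≠ u := l1 hq.c nuv auv'
  have i3 : h0 ≠ u := l1 hh.c nuv auv'
  have i4 : p' ≠ v := l1 hp.c nuv.symm auv
  have i5 : g2 ≠ v := l1 hg2.c nuv.symm auv
  have i5' : g4 ≠ v := l1 hg4.c nuv.symm auv
  have pv : ¬ G.Adj v p' := bad_no b3 hp auv'
  have qu : ¬ G.Adj u q := bad_no (Bad.swap b1) hq auv
  have i8 : h0 ≠ p' := l1 hh.c i4 pv
  have i9 : g2 ≠ q := l1 hg2.c i1 qu
  have i10 : g4 ≠ q := l1 hg4.c i1 qu
  have j1 : g2 ≠ t1 := l1 hg2.c u1.symm ut1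
  have j2 : g4 ≠ t1 := l1 hg4.c u1.symm ut1
  have j3 : q ≠ t4 := l2 hq.a C.e41
  have j4 : g2 ≠ t3 := l1 hg2.c u3.symm ut3
  have j5 : g4 ≠ t3 := l1 hg4.c u3.symm ut3
  have e1 : q = t2 := by
    by_contra hne
    have f8 : q ≠ t2 := hne
    refine meetF C.r1234 (p := q) (q := v) (r := v) (p' := g2) (q' := u) (r' := g4)
      (Or.inr hq.a') hq.c' (Or.inl rfl) (Or.inr vt3) (Or.inr hg2.a') hg2.c' hg4.d
      (Or.inr hg4.a) ?_ ?_
    all_goals
      simp only [List.mem_cons, List.not_mem_nil, or_false, forall_eq_or_imp, forall_eq]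
      constructorm* _ ∧ _ <;> first | assumption | exact Ne.symm (by assumption)
  subst e1
  have vt2 : G.Adj v q := by
    rcases hq.c with e | e
    · exact absurd e.symm v2
    · exact e
  have j6 : g2 ≠ t0 := l2 hg2.a C.e02
  have j7 : p' ≠ t0 := l2 hp.a C.e03
  have j8 : p' ≠ q := l1 hp.c u2.symm ut2
  have j9 := hp.nt
  have j10 := hh.nt
  have j11 : h0 ≠ q := l2 hh.a C.e20
  have j12 : h0 ≠ t3 := l2 hh.a C.e30
  have j13 : h0 ≠ t1 := l1 hh.c v1.symm vt1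
  have j14 : g2 ≠ h0 := by
    rintro rfl
    have ag : G.Adj v g2 := cn_adj hh vt0
    have e4 : g2 ≠ t4 := by
      rintro rfl
      exact C.e42 hg2.a
    exact (C.w g2 hh.nx j6 j13 i9 j4 e4).1 ⟨hh.a, hg2.a⟩
  refine k33x C.k33 (x := x) (u := u) (a1 := g2) (a2 := p') (a3 := u) (v := v) (b1 := h0)
    (b2 := v) (b3 := v) (c0 := t0) (c1 := q) (c2 := t3) (d := t3) ?_ ?_ (Or.inl rfl)
    ?_ ?_ ?_ ?_ y02 C.a0 C.a2 C.a3 ⟨u, by simp, ut0⟩ ⟨g2, by simp, hg2.a⟩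
    ⟨p', by simp, t3, by simp, hp.a⟩ ⟨h0, by simp, hh.a⟩ ⟨v, by simp, vt2⟩
    ⟨v, by simp, t3, by simp, vt3⟩
  · simp only [List.mem_cons, List.not_mem_nil, or_false, forall_eq_or_imp, forall_eq]
    exact ⟨hg2.c, hp.c, by simp⟩
  · simp only [List.mem_cons, List.not_mem_nil, or_false, forall_eq_or_imp, forall_eq]
    exact ⟨hh.c, by simp, by simp⟩
  all_goals
    simp only [List.mem_cons, List.not_mem_nil, or_false, forall_eq_or_imp, forall_eq]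
    constructorm* _ ∧ _ <;> first | assumption | exact Ne.symm (by assumption)

/-- all connectors of `u` to `t 1` are `t 0`, `v` is not adjacent to `t 3`, `u` is adjacent to
`t 4` -/
lemma case2 {x t0 t1 t2 t3 t4 u v q q' g2 h0 h4 : V} (C : C5 G x t0 t1 t2 t3 t4)
    (Fu : Far G x t0 t1 t2 t3 t4 u) (Fv : Far G x t0 t1 t2 t3 t4 v)
    (nuv : u ≠ v) (auv : ¬ G.Adj u v) (auv' : ¬ G.Adj v u)
    (b1 : Bad G x u v t1) (b3 : Bad G x u v t3)
    (ut1 : ¬ G.Adj u t1) (ut0 : G.Adj u t0) (ut4 : G.Adj u t4)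
    (vt0 : ¬ G.Adj v t0) (vt3 : ¬ G.Adj v t3) (vt4 : ¬ G.Adj v t4)
    (hg2 : Cn G x u t2 g2) (hq : Cn G x v t1 q) (hq' : Cn G x v t3 q')
    (hh : Cn G x v t0 h0) (hh4 : Cn G x v t4 h4) : False := by
  obtain ⟨w1, w2, w3, w4, w5⟩ := Fu.w
  have ut3 : ¬ G.Adj u t3 := fun e => w2 ⟨ut0, e⟩
  have x0 := C.n0; have x1 := C.n1; have x2 := C.n2; have x3 := C.n3; have x4 := C.n4
  have y01 := C.n01; have y02 := C.n02; have y03 := C.n03; have y04 := C.n04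
  have y12 := C.n12; have y13 := C.n13; have y14 := C.n14; have y23 := C.n23
  have y24 := C.n24; have y34 := C.n34
  have u0 := Fu.n0; have u1 := Fu.n1; have u2 := Fu.n2; have u3 := Fu.n3; have u4 := Fu.n4
  have v0 := Fv.n0; have v1 := Fv.n1; have v2 := Fv.n2; have v3 := Fv.n3; have v4 := Fv.n4
  have ux := Fu.nx; have vx := Fv.nx
  have k1 := hq'.nx; have k2 := hg2.nx; have k3 := hq.nx; have k4 := hh4.nx; have k5 := hh.nx
  have i1 : q ≠ u := l1 hq.c nuv auv'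
  have i2 : q' ≠ u := l1 hq'.c nuv auv'
  have i3 : h0 ≠ u := l1 hh.c nuv auv'
  have i3' : h4 ≠ u := l1 hh4.c nuv auv'
  have i5 : g2 ≠ v := l1 hg2.c nuv.symm auv
  have qu : ¬ G.Adj u q := bad_no (Bad.swap b1) hq auv
  have qu' : ¬ G.Adj u q' := bad_no (Bad.swap b3) hq' auv
  have i9 : g2 ≠ q := l1 hg2.c i1 qu
  have i10 : g2 ≠ q' := l1 hg2.c i2 qu'
  have j1 : g2 ≠ t1 := l1 hg2.c u1.symm ut1
  have j3 : q ≠ t4 := l2 hq.a C.e41
  have j3' : q' ≠ t4 := l1 hq'.c v4.symm vt4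
  have j4 : g2 ≠ t3 := l1 hg2.c u3.symm ut3
  have vt2 : G.Adj v t2 := by
    by_contra hne
    have f8 : q ≠ t2 := l1 hq.c v2.symm hne
    have f9 : q' ≠ t2 := l1 hq'.c v2.symm hne
    refine meetF C.r1234 (p := q) (q := v) (r := q') (p' := g2) (q' := u) (r' := u)
      (Or.inr hq.a') hq.c' hq'.d (Or.inr hq'.a) (Or.inr hg2.a') hg2.c' (Or.inl rfl)
      (Or.inr ut4) ?_ ?_
    all_goals
      simp only [List.mem_cons, List.not_mem_nil, or_false, forall_eq_or_imp, forall_eq]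
      constructorm* _ ∧ _ <;> first | assumption | exact Ne.symm (by assumption)
  have j6 : g2 ≠ t0 := l2 hg2.a C.e02
  have j7 : g2 ≠ t4 := l2 hg2.a C.e42
  have j8 := hg2.nt
  have j10 := hh.nt
  have j11 : h0 ≠ t2 := l2 hh.a C.e20
  have j12 : h0 ≠ t4 := l1 hh.c v4.symm vt4
  have j13 := hh4.nt
  have j14 : h4 ≠ t2 := l2 hh4.a C.e24
  have j15 : h4 ≠ t0 := l1 hh4.c v0.symm vt0
  have j16 : g2 ≠ h0 := by
    rintro rfl
    exact (C.w g2 hh.nx j6 j1 j8 j4 j7).1 ⟨hh.a, hg2.a⟩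
  have j17 : g2 ≠ h4 := by
    rintro rfl
    exact (C.w g2 hg2.nx j6 j1 j8 j4 j7).2.2.2.2 ⟨hg2.a, hh4.a⟩
  refine k33x C.k33 (x := x) (u := u) (a1 := g2) (a2 := u) (a3 := u) (v := v) (b1 := h0)
    (b2 := h4) (b3 := v) (c0 := t2) (c1 := t0) (c2 := t4) (d := t4) ?_ ?_ (Or.inl rfl)
    ?_ ?_ ?_ ?_ y02.symm C.a2 C.a0 C.a4 ⟨g2, by simp, hg2.a⟩ ⟨u, by simp, ut0⟩
    ⟨u, by simp, t4, by simp, ut4⟩ ⟨v, by simp, vt2⟩ ⟨h0, by simp, hh.a⟩
    ⟨h4, by simp, t4, by simp, hh4.a⟩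
  · simp only [List.mem_cons, List.not_mem_nil, or_false, forall_eq_or_imp, forall_eq]
    exact ⟨hg2.c, by simp, by simp⟩
  · simp only [List.mem_cons, List.not_mem_nil, or_false, forall_eq_or_imp, forall_eq]
    exact ⟨hh.c, hh4.c, by simp⟩
  all_goals
    simp only [List.mem_cons, List.not_mem_nil, or_false, forall_eq_or_imp, forall_eq]
    constructorm* _ ∧ _ <;> first | assumption | exact Ne.symm (by assumption)

/-- all connectors of `u` to `t 1` are `t 0` -/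
lemma case_all {x t0 t1 t2 t3 t4 u v : V} (C : C5 G x t0 t1 t2 t3 t4)
    (Fu : Far G x t0 t1 t2 t3 t4 u) (Fv : Far G x t0 t1 t2 t3 t4 v)
    (nuv : u ≠ v) (auv : ¬ G.Adj u v) (auv' : ¬ G.Adj v u)
    (b1 : Bad G x u v t1) (b3 : Bad G x u v t3)
    (t10 : G.Adj t1 t0) (t12 : G.Adj t1 t2) (t34 : G.Adj t3 t4)
    (ut1 : ¬ G.Adj u t1) (vt1 : ¬ G.Adj v t1)
    (cu : ∀ s ∈ [t0, t1, t2, t3, t4], ∃ y, Cn G x u s y)
    (cv : ∀ s ∈ [t0, t1, t2, t3, t4], ∃ y, Cn G x v s y)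
    (all : ∀ c, Cn G x u t1 c → c = t0) : False := by
  obtain ⟨w1, w2, w3, w4, w5⟩ := Fu.w
  obtain ⟨p, hp1⟩ := cu t1 (by simp)
  have e1 := all p hp1
  subst e1
  have ut0 : G.Adj u p := by
    rcases hp1.c with e | e
    · exact absurd e.symm Fu.n0
    · exact e
  have ut2 : ¬ G.Adj u t2 := fun e => w1 ⟨ut0, e⟩
  have ut3 : ¬ G.Adj u t3 := fun e => w2 ⟨ut0, e⟩
  have vt0 : ¬ G.Adj v p := fun e => b1 p C.n0.symm ut0 e (Or.inr t10.symm)
  obtain ⟨p', hp⟩ := cu t3 (by simp)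
  obtain ⟨g2, hg2⟩ := cu t2 (by simp)
  obtain ⟨g4, hg4⟩ := cu t4 (by simp)
  obtain ⟨q, hq⟩ := cv t1 (by simp)
  obtain ⟨h0, hh⟩ := cv p (by simp)
  obtain ⟨h2, hh2⟩ := cv t2 (by simp)
  obtain ⟨h4, hh4⟩ := cv t4 (by simp)
  obtain ⟨q', hq'⟩ := cv t3 (by simp)
  by_cases vt3 : G.Adj v t3
  · exact case1 C Fu Fv nuv auv auv' b1 b3 ut1 vt1 ut0 ut2 vt0 vt3 hp hg2 hg4 hq hh
  · have e2 : p' = t4 := by
      by_contra hne
      have x0 := C.n0; have x1 := C.n1; have x2 := C.n2; have x3 := C.n3; have x4 := C.n4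
      have y01 := C.n01; have y02 := C.n02; have y03 := C.n03; have y04 := C.n04
      have y12 := C.n12; have y13 := C.n13; have y14 := C.n14; have y23 := C.n23
      have y24 := C.n24; have y34 := C.n34
      have u0 := Fu.n0; have u1 := Fu.n1; have u2 := Fu.n2; have u3 := Fu.n3; have u4 := Fu.n4
      have v0 := Fv.n0; have v1 := Fv.n1; have v2 := Fv.n2; have v3 := Fv.n3; have v4 := Fv.n4
      have ux := Fu.nx; have vx := Fv.nx
      have k1 := hp.nx; have k2 := hh2.nx; have k4 := hh4.nx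
      have i1 : h2 ≠ u := l1 hh2.c nuv auv'
      have i2 : h4 ≠ u := l1 hh4.c nuv auv'
      have i4 : p' ≠ v := l1 hp.c nuv.symm auv
      have pv : ¬ G.Adj v p' := bad_no b3 hp auv'
      have i5 : h2 ≠ p' := l1 hh2.c i4 pv
      have i6 : h4 ≠ p' := l1 hh4.c i4 pv
      have i7 : h2 ≠ t1 := l1 hh2.c v1.symm vt1
      have i8 : h4 ≠ t1 := l1 hh4.c v1.symm vt1
      have i9 : h2 ≠ p := l1 hh2.c v0.symm vt0
      have i10 : h4 ≠ p := l1 hh4.c v0.symm vt0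
      have i11 : h2 ≠ t3 := l1 hh2.c v3.symm vt3
      have i12 : h4 ≠ t3 := l1 hh4.c v3.symm vt3
      have i13 : p' ≠ t2 := l1 hp.c u2.symm ut2
      have i14 : p' ≠ t4 := hne
      refine meetF C.r1234 (p := p) (q := u) (r := p') (p' := h2) (q' := v) (r' := h4)
        (Or.inr t10) (Or.inr ut0.symm) hp.d (Or.inr hp.a) (Or.inr hh2.a') hh2.c' hh4.d
        (Or.inr hh4.a) ?_ ?_
      all_goals
        simp only [List.mem_cons, List.not_mem_nil, or_false, forall_eq_or_imp, forall_eq]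
        constructorm* _ ∧ _ <;> first | assumption | exact Ne.symm (by assumption)
    subst e2
    have ut4 : G.Adj u p' := by
      rcases hp.c with e | e
      · exact absurd e.symm Fu.n4
      · exact e
    have vt4 : ¬ G.Adj v p' := fun e => b3 p' C.n4.symm ut4 e (Or.inr t34.symm)
    exact case2 C Fu Fv nuv auv auv' b1 b3 ut1 ut0 ut4 vt0 vt3 vt4 hg2 hq hq' hh hh4

theorem k5g : K5GStmt := by
  intro V G R x t u v K b1 b3 t34 ut1 vt1
  have C := c5_of K.toW5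
  have Fu := far_of C K.mu
  have Fv := far_of C K.mv
  have hm : ∀ i < 5, t i ∈ D G R x := K.circ.mem
  have cu' : ∀ i < 5, ∃ y, Cn G x u (t i) y := fun i hi => cn_exists K.s5.lf K.mu (hm i hi)
  have cv' : ∀ i < 5, ∃ y, Cn G x v (t i) y := fun i hi => cn_exists K.s5.lf K.mv (hm i hi)
  have auv' : ¬ G.Adj v u := fun e => K.auv e.symm
  have cu : ∀ s ∈ [t 0, t 1, t 2, t 3, t 4], ∃ y, Cn G x u s y := by
    simp only [List.mem_cons, List.not_mem_nil, or_false, forall_eq_or_imp, forall_eq]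
    exact ⟨cu' 0 (by omega), cu' 1 (by omega), cu' 2 (by omega), cu' 3 (by omega),
      cu' 4 (by omega)⟩
  have cv : ∀ s ∈ [t 0, t 1, t 2, t 3, t 4], ∃ y, Cn G x v s y := by
    simp only [List.mem_cons, List.not_mem_nil, or_false, forall_eq_or_imp, forall_eq]
    exact ⟨cv' 0 (by omega), cv' 1 (by omega), cv' 2 (by omega), cv' 3 (by omega),
      cv' 4 (by omega)⟩
  by_cases h1 : ∀ c, Cn G x u (t 1) c → c = t 0
  · exact case_all C Fu Fv K.nuv K.auv auv' b1 b3 K.c10 K.c12 t34 ut1 vt1 cu cv h1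
  · by_cases h2 : ∀ c, Cn G x v (t 1) c → c = t 0
    · exact case_all C Fv Fu K.nuv.symm auv' K.auv (Bad.swap b1) (Bad.swap b3) K.c10 K.c12 t34
        vt1 ut1 cv cu h2
    · push Not at h1 h2
      obtain ⟨p, hp1, m1⟩ := h1
      obtain ⟨q, hq, m2⟩ := h2
      obtain ⟨p', hp⟩ := cu' 3 (by omega)
      obtain ⟨g0, hg⟩ := cu' 0 (by omega)
      obtain ⟨q', hq'⟩ := cv' 3 (by omega)
      obtain ⟨h0, hh⟩ := cv' 0 (by omega)
      exact step C Fu Fv K.nuv K.auv auv' b1 b3 ut1 vt1 hp1 hp hg hq hq' hh m1 m2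

end Pool.Agent.H84.RCQ.K5G
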