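import Pool.Agent.H84.RCQ.C6

set_option autoImplicit false

namespace Pool.Agent.H84.RCQ.K6F

open Pool.Agent.H39.RC Pool.Agent.H6.RCQ Pool.Agent.H84.RCQ.Tool
open Classical

variable {V : Type} {G : SimpleGraph V}

/-- connectors of `u` to `t 4` are `t 3` or `t 5` -/
lemma conn {x t0 t1 t2 t3 t4 t5 u v p h3 h5 : V} (C : C6 G x t0 t1 t2 t3 t4 t5)
    (Fu : Far6 G x t0 t1 t2 t3 t4 t5 u) (Fv : Far6 G x t0 t1 t2 t3 t4 t5 v)
    (nuv : u ≠ v) (auv : ¬ G.Adj u v) (auv' : ¬ G.Adj v u)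
    (ut1 : G.Adj u t1) (vt1 : G.Adj v t1) (b4 : Bad G x u v t4)
    (hp : Cn G x u t4 p) (hh3 : Cn G x v t3 h3) (hh5 : Cn G x v t5 h5) : p = t3 ∨ p = t5 := by
  by_contra hcon
  push Not at hcon
  obtain ⟨m1, m2⟩ := hcon
  obtain ⟨w1, w2, w3, w4, w5⟩ := Fv.w
  have vt4 : ¬ G.Adj v t4 := fun e => w2 ⟨vt1, e⟩
  have x0 := C.n0; have x1 := C.n1; have x2 := C.n2; have x3 := C.n3; have x4 := C.n4
  have x5 := C.n5
  have y01 := C.n01; have y02 := C.n02; have y03 := C.n03; have y04 := C.n04; have y05 := C.n05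
  have y12 := C.n12; have y13 := C.n13; have y14 := C.n14; have y15 := C.n15
  have y23 := C.n23; have y24 := C.n24; have y25 := C.n25; have y34 := C.n34
  have y35 := C.n35; have y45 := C.n45
  have u0 := Fu.n0; have u1 := Fu.n1; have u2 := Fu.n2; have u3 := Fu.n3; have u4 := Fu.n4
  have u5 := Fu.n5; have v5 := Fv.n5
  have v0 := Fv.n0; have v1 := Fv.n1; have v2 := Fv.n2; have v3 := Fv.n3; have v4 := Fv.n4
  have ux := Fu.nx; have vx := Fv.nx
  have k1 := hp.nx; have k2 := hh3.nx; have k3 := hh5.nx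
  have i1 : h3 ≠ u := l1 hh3.c nuv auv'
  have i2 : h5 ≠ u := l1 hh5.c nuv auv'
  have i3 : p ≠ v := l1 hp.c nuv.symm auv
  have pv : ¬ G.Adj v p := bad_no b4 hp auv'
  have i4 : h3 ≠ p := l1 hh3.c i3 pv
  have i5 : h5 ≠ p := l1 hh5.c i3 pv
  have i6 : h3 ≠ t4 := l1 hh3.c v4.symm vt4
  have i7 : h5 ≠ t4 := l1 hh5.c v4.symm vt4
  have i8 : h3 ≠ t1 := l2 hh3.a C.e13
  have i9 : h5 ≠ t1 := l2 hh5.a C.e15
  refine meetF C.r1345 (p := u) (q := u) (r := p) (p' := h3) (q' := v) (r' := h5)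
    (Or.inr ut1.symm) (Or.inl rfl) hp.d (Or.inr hp.a) (Or.inr hh3.a') hh3.c' hh5.d
    (Or.inr hh5.a) ?_ ?_
  all_goals
    simp only [List.mem_cons, List.not_mem_nil, or_false, forall_eq_or_imp, forall_eq]
    constructorm* _ ∧ _ <;> first | assumption | exact Ne.symm (by assumption)

/-- the common connector -/
lemma hub {x t0 t1 t2 t3 t4 t5 u v g5 h3 : V} (C : C6 G x t0 t1 t2 t3 t4 t5)
    (Fu : Far6 G x t0 t1 t2 t3 t4 t5 u) (Fv : Far6 G x t0 t1 t2 t3 t4 t5 v)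
    (nuv : u ≠ v) (auv : ¬ G.Adj u v) (auv' : ¬ G.Adj v u)
    (ut1 : G.Adj u t1) (vt1 : G.Adj v t1) (ut3 : G.Adj u t3) (vt5 : G.Adj v t5)
    (hg : Cn G x u t5 g5) (hh : Cn G x v t3 h3) : g5 = h3 := by
  by_contra hne
  have x0 := C.n0; have x1 := C.n1; have x2 := C.n2; have x3 := C.n3; have x4 := C.n4
  have x5 := C.n5
  have y01 := C.n01; have y02 := C.n02; have y03 := C.n03; have y04 := C.n04; have y05 := C.n05
  have y12 := C.n12; have y13 := C.n13; have y14 := C.n14; have y15 := C.n15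
  have y23 := C.n23; have y24 := C.n24; have y25 := C.n25; have y34 := C.n34
  have y35 := C.n35; have y45 := C.n45
  have u0 := Fu.n0; have u1 := Fu.n1; have u2 := Fu.n2; have u3 := Fu.n3; have u4 := Fu.n4
  have u5 := Fu.n5; have v5 := Fv.n5
  have v0 := Fv.n0; have v1 := Fv.n1; have v2 := Fv.n2; have v3 := Fv.n3; have v4 := Fv.n4
  have ux := Fu.nx; have vx := Fv.nx
  have k1 := hg.nx; have k2 := hh.nx
  have i1 : h3 ≠ u := l1 hh.c nuv auv'
  have i2 : g5 ≠ v := l1 hg.c nuv.symm auv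
  have i3 : g5 ≠ h3 := hne
  have j1 : g5 ≠ t1 := l2 hg.a C.e15
  have j2 : g5 ≠ t3 := l2 hg.a C.e35
  have j3 := hg.nt
  have j4 : h3 ≠ t1 := l2 hh.a C.e13
  have j5 : h3 ≠ t5 := l2 hh.a C.e53
  have j6 := hh.nt
  refine k33x C.k33 (x := x) (u := u) (a1 := g5) (a2 := u) (a3 := u) (v := v) (b1 := h3)
    (b2 := v) (b3 := v) (c0 := t1) (c1 := t3) (c2 := t5) (d := t5) ?_ ?_ (Or.inl rfl)
    ?_ ?_ ?_ ?_ y13 C.a1 C.a3 C.a5 ⟨u, by simp, ut1⟩ ⟨u, by simp, ut3⟩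
    ⟨g5, by simp, t5, by simp, hg.a⟩ ⟨v, by simp, vt1⟩ ⟨h3, by simp, hh.a⟩
    ⟨v, by simp, t5, by simp, vt5⟩
  · simp only [List.mem_cons, List.not_mem_nil, or_false, forall_eq_or_imp, forall_eq]
    exact ⟨hg.c, by simp, by simp⟩
  · simp only [List.mem_cons, List.not_mem_nil, or_false, forall_eq_or_imp, forall_eq]
    exact ⟨hh.c, by simp, by simp⟩
  all_goals
    simp only [List.mem_cons, List.not_mem_nil, or_false, forall_eq_or_imp, forall_eq]
    constructorm* _ ∧ _ <;> first | assumption | exact Ne.symm (by assumption)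

/-- a vertex adjacent to `t 3` -/
lemma fin3 {x t0 t1 t2 t3 t4 t5 u v h w k : V} (C : C6 G x t0 t1 t2 t3 t4 t5)
    (Fu : Far6 G x t0 t1 t2 t3 t4 t5 u) (Fv : Far6 G x t0 t1 t2 t3 t4 t5 v)
    (Fw : Far6 G x t0 t1 t2 t3 t4 t5 w) (nuv : u ≠ v) (nwu : w ≠ u) (nwv : w ≠ v) (nwh : w ≠ h)
    (hx : h ≠ x) (h0 : h ≠ t0) (h3 : h ≠ t3) (hv : h ≠ v)
    (ut1 : G.Adj u t1) (vt1 : G.Adj v t1) (vt5 : G.Adj v t5) (uh : G.Adj u h)
    (ht5 : G.Adj h t5) (wt1 : ¬ G.Adj w t1) (wt5 : ¬ G.Adj w t5) (wt3 : G.Adj w t3)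
    (hk : Cn G x w t0 k) : False := by
  have x0 := C.n0; have x1 := C.n1; have x2 := C.n2; have x3 := C.n3; have x4 := C.n4
  have x5 := C.n5
  have y01 := C.n01; have y02 := C.n02; have y03 := C.n03; have y04 := C.n04; have y05 := C.n05
  have y12 := C.n12; have y13 := C.n13; have y14 := C.n14; have y15 := C.n15
  have y23 := C.n23; have y24 := C.n24; have y25 := C.n25; have y34 := C.n34
  have y35 := C.n35; have y45 := C.n45
  have u0 := Fu.n0; have u1 := Fu.n1; have u2 := Fu.n2; have u3 := Fu.n3; have u4 := Fu.n4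
  have u5 := Fu.n5; have v5 := Fv.n5
  have v0 := Fv.n0; have v1 := Fv.n1; have v2 := Fv.n2; have v3 := Fv.n3; have v4 := Fv.n4
  have ux := Fu.nx; have vx := Fv.nx
  have w0 := Fw.n0; have w1 := Fw.n1; have w3 := Fw.n3; have w5 := Fw.n5; have wx := Fw.nx
  have k0 := hk.nx
  have k1 : k ≠ t1 := l1 hk.c w1.symm wt1
  have k2 : k ≠ t5 := l1 hk.c w5.symm wt5
  have e : k = v := by
    by_contra hne
    have k3 : k ≠ v := hne
    refine meetF C.r0135 (p := k) (q := w) (r := w) (p' := v) (q' := v) (r' := v)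
      (Or.inr hk.a') hk.c' (Or.inl rfl) (Or.inr wt3) (Or.inr vt1.symm) (Or.inl rfl)
      (Or.inl rfl) (Or.inr vt5) ?_ ?_
    all_goals
      simp only [List.mem_cons, List.not_mem_nil, or_false, forall_eq_or_imp, forall_eq]
      constructorm* _ ∧ _ <;> first | assumption | exact Ne.symm (by assumption)
  subst e
  refine meetF C.r0135 (p := k) (q := w) (r := w) (p' := u) (q' := u) (r' := h)
    (Or.inr hk.a') hk.c' (Or.inl rfl) (Or.inr wt3) (Or.inr ut1.symm) (Or.inl rfl)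
    (Or.inr uh) (Or.inr ht5) ?_ ?_
  all_goals
    simp only [List.mem_cons, List.not_mem_nil, or_false, forall_eq_or_imp, forall_eq]
    constructorm* _ ∧ _ <;> first | assumption | exact Ne.symm (by assumption)

/-- a vertex adjacent to `t 5` -/
lemma fin5 {x t0 t1 t2 t3 t4 t5 u v h w k : V} (C : C6 G x t0 t1 t2 t3 t4 t5)
    (Fu : Far6 G x t0 t1 t2 t3 t4 t5 u) (Fv : Far6 G x t0 t1 t2 t3 t4 t5 v)
    (Fw : Far6 G x t0 t1 t2 t3 t4 t5 w) (nuv : u ≠ v) (nwu : w ≠ u) (nwv : w ≠ v) (nwh : w ≠ h)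
    (hx : h ≠ x) (h2 : h ≠ t2) (h5 : h ≠ t5) (hu : h ≠ u)
    (ut1 : G.Adj u t1) (vt1 : G.Adj v t1) (ut3 : G.Adj u t3) (vh : G.Adj v h)
    (ht3 : G.Adj h t3) (wt1 : ¬ G.Adj w t1) (wt3 : ¬ G.Adj w t3) (wt5 : G.Adj w t5)
    (hk : Cn G x w t2 k) : False := by
  have x0 := C.n0; have x1 := C.n1; have x2 := C.n2; have x3 := C.n3; have x4 := C.n4
  have x5 := C.n5
  have y01 := C.n01; have y02 := C.n02; have y03 := C.n03; have y04 := C.n04; have y05 := C.n05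
  have y12 := C.n12; have y13 := C.n13; have y14 := C.n14; have y15 := C.n15
  have y23 := C.n23; have y24 := C.n24; have y25 := C.n25; have y34 := C.n34
  have y35 := C.n35; have y45 := C.n45
  have u0 := Fu.n0; have u1 := Fu.n1; have u2 := Fu.n2; have u3 := Fu.n3; have u4 := Fu.n4
  have u5 := Fu.n5; have v5 := Fv.n5
  have v0 := Fv.n0; have v1 := Fv.n1; have v2 := Fv.n2; have v3 := Fv.n3; have v4 := Fv.n4
  have ux := Fu.nx; have vx := Fv.nx
  have w2 := Fw.n2; have w1 := Fw.n1; have w3 := Fw.n3; have w5 := Fw.n5; have wx := Fw.nx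
  have k0 := hk.nx
  have k1 : k ≠ t1 := l1 hk.c w1.symm wt1
  have k2 : k ≠ t3 := l1 hk.c w3.symm wt3
  have e : k = u := by
    by_contra hne
    have k3 : k ≠ u := hne
    refine meetF C.r1235 (p := u) (q := u) (r := u) (p' := k) (q' := w) (r' := w)
      (Or.inr ut1.symm) (Or.inl rfl) (Or.inl rfl) (Or.inr ut3) (Or.inr hk.a') hk.c'
      (Or.inl rfl) (Or.inr wt5) ?_ ?_
    all_goals
      simp only [List.mem_cons, List.not_mem_nil, or_false, forall_eq_or_imp, forall_eq]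
      constructorm* _ ∧ _ <;> first | assumption | exact Ne.symm (by assumption)
  subst e
  refine meetF C.r1235 (p := v) (q := v) (r := h) (p' := k) (q' := w) (r' := w)
    (Or.inr vt1.symm) (Or.inl rfl) (Or.inr vh) (Or.inr ht3) (Or.inr hk.a') hk.c'
    (Or.inl rfl) (Or.inr wt5) ?_ ?_
  all_goals
    simp only [List.mem_cons, List.not_mem_nil, or_false, forall_eq_or_imp, forall_eq]
    constructorm* _ ∧ _ <;> first | assumption | exact Ne.symm (by assumption)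

/-- there is a vertex of `U` different from `u`, `v`, `h` and not adjacent to `t 1` -/
lemma exists_w {R : Finset V} {x : V} {t : ℕ → V} {u v : V} (h : V) (K : K6 G R x t u v)
    (ut1 : G.Adj u (t 1)) (vt1 : G.Adj v (t 1)) :
    ∃ w ∈ U G R x, w ≠ u ∧ w ≠ v ∧ w ≠ h ∧ ¬ G.Adj w (t 1) := by
  have C := c6_of K.toW6
  have Fu := far6_of C K.mu
  have Fv := far6_of C K.mv
  have hmem : ∀ i < 6, t i ∈ R := by
    intro i hi
    have := K.circ.mem i hi
    unfold D at this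
    exact (Finset.mem_filter.mp this).1
  have huR : u ∈ R := (Finset.mem_filter.mp K.mu).1
  have hvR : v ∈ R := (Finset.mem_filter.mp K.mv).1
  have h1 : ({t 0, t 2, u, v} : Finset V) ⊆ D G R (t 1) := by
    intro z hz
    unfold D
    simp only [Finset.mem_insert, Finset.mem_singleton] at hz
    rw [Finset.mem_filter]
    rcases hz with rfl | rfl | rfl | rfl
    · exact ⟨hmem 0 (by omega), K.c10⟩
    · exact ⟨hmem 2 (by omega), K.c12⟩
    · exact ⟨huR, ut1.symm⟩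
    · exact ⟨hvR, vt1.symm⟩
  have h2 : ({t 0, t 2, u, v} : Finset V).card = 4 := by
    rw [Finset.card_insert_of_notMem, Finset.card_insert_of_notMem, Finset.card_pair K.nuv]
    · simp only [Finset.mem_insert, Finset.mem_singleton, not_or]
      exact ⟨Fu.n2.symm, Fv.n2.symm⟩
    · simp only [Finset.mem_insert, Finset.mem_singleton, not_or]
      exact ⟨C.n02, Fu.n0.symm, Fv.n0.symm⟩
  have h3 : (D G R (t 1)).card ≤ 6 := K.s6.deg (t 1)
  have h4 : (D G R (t 1) \ {t 0, t 2, u, v}).card ≤ 2 := by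
    rw [Finset.card_sdiff_of_subset h1]
    omega
  have h5 := card_u6 K.toW6
  have h6 : (({u, v, h} : Finset V) ∪ (D G R (t 1) \ {t 0, t 2, u, v})).card < (U G R x).card := by
    refine lt_of_le_of_lt (Finset.card_union_le _ _) ?_
    have := Finset.card_le_three (a := u) (b := v) (c := h)
    omega
  obtain ⟨w, hw, hn⟩ := Finset.exists_mem_notMem_of_card_lt_card h6
  have Fw := far6_of C hw
  simp only [Finset.mem_union, Finset.mem_insert, Finset.mem_singleton, Finset.mem_sdiff,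
    not_or] at hn
  refine ⟨w, hw, hn.1.1, hn.1.2.1, hn.1.2.2, fun e => ?_⟩
  apply hn.2
  refine ⟨?_, Fw.n0, Fw.n2, hn.1.1, hn.1.2.1⟩
  unfold D
  exact Finset.mem_filter.mpr ⟨(Finset.mem_filter.mp hw).1, e.symm⟩

/-- the main case -/
lemma main {R : Finset V} {x : V} {t : ℕ → V} {u v : V} (K : K6 G R x t u v)
    (ut1 : G.Adj u (t 1)) (vt1 : G.Adj v (t 1)) (b4 : Bad G x u v (t 4))
    (ut3 : G.Adj u (t 3)) (vt5 : G.Adj v (t 5)) : False := by
  have C := c6_of K.toW6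
  have Fu := far6_of C K.mu
  have Fv := far6_of C K.mv
  have auv' : ¬ G.Adj v u := fun e => K.auv e.symm
  have hm : ∀ i < 6, t i ∈ D G R x := K.circ.mem
  obtain ⟨g5, hg⟩ := cn_exists K.s6.lf K.mu (hm 5 (by omega))
  obtain ⟨h3, hh⟩ := cn_exists K.s6.lf K.mv (hm 3 (by omega))
  have e := hub C Fu Fv K.nuv K.auv auv' ut1 vt1 ut3 vt5 hg hh
  subst e
  have ut5 : ¬ G.Adj u (t 5) := fun e => Fu.w.2.2.2.2 ⟨ut1, ut3, e⟩
  have vt3 : ¬ G.Adj v (t 3) := fun e => Fv.w.2.2.2.2 ⟨vt1, e, vt5⟩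
  have uh : G.Adj u g5 := cn_adj hg ut5
  have vh : G.Adj v g5 := cn_adj hh vt3
  have f0 : g5 ≠ t 0 := l2 hh.a C.e03
  have f1 : g5 ≠ t 1 := l2 hh.a C.e13
  have f2 : g5 ≠ t 2 := l2 hg.a C.e25
  have f3 := hh.nt
  have f4 : g5 ≠ t 4 := fun e => b4 g5 hg.nx uh vh (Or.inl e)
  have f5 := hg.nt
  have ht4 : ¬ G.Adj g5 (t 4) := fun e => b4 g5 hg.nx uh vh (Or.inr e)
  have hD : g5 ∉ D G R x := not_mem_d6 K.circ f0 f1 f2 f3 f4 f5
  obtain ⟨-, -, s3, s4, s5⟩ := K.iso g5 hg.nx hD 3 (by omega) hh.a hg.a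
  obtain ⟨w, hw, nwu, nwv, nwh, wt1⟩ := exists_w g5 K ut1 vt1
  have Fw := far6_of C hw
  have hwR : w ∈ R := (Finset.mem_filter.mp hw).1
  have hwD : w ∉ D G R x := not_mem_d6 K.circ Fw.n0 Fw.n1 Fw.n2 Fw.n3 Fw.n4 Fw.n5
  have nb : ¬ (G.Adj w (t 3) ∧ G.Adj w (t 5)) := by
    rintro ⟨e1, e2⟩
    obtain ⟨-, -, -, r4, -⟩ := K.iso w Fw.nx hwD 3 (by omega) e1 e2
    have r5 := r4 hwR
    rcases s3 w hwR r5 with e | e | e | e
    · exact Fw.nx e
    · exact nwh e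
    · exact Fw.n3 e
    · exact Fw.n5 e
  have hu : g5 ≠ u := uh.ne'
  have hv : g5 ≠ v := vh.ne'
  rcases s5 w hw nwh with e | e | e
  · obtain ⟨k, hk⟩ := cn_exists K.s6.lf hw (hm 0 (by omega))
    exact fin3 C Fu Fv Fw K.nuv nwu nwv nwh hg.nx f0 f3 hv ut1 vt1 vt5 uh hg.a wt1
      (fun e' => nb ⟨e, e'⟩) e hk
  · obtain ⟨k, hk⟩ := cn_exists K.s6.lf hw (hm 2 (by omega))
    exact fin5 C Fu Fv Fw K.nuv nwu nwv nwh hg.nx f2 f5 hu ut1 vt1 ut3 vh hh.a wt1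
      (fun e' => nb ⟨e', e⟩) e hk
  · exact ht4 e.2

lemma swap {R : Finset V} {x : V} {t : ℕ → V} {u v : V} (K : K6 G R x t u v) :
    K6 G R x t v u :=
  { K with mu := K.mv, mv := K.mu, nuv := K.nuv.symm, auv := fun e => K.auv e.symm }

theorem k6f : K6FStmt := by
  intro V G R x t u v K ut1 vt1 b4
  have C := c6_of K.toW6
  have Fu := far6_of C K.mu
  have Fv := far6_of C K.mv
  have auv' : ¬ G.Adj v u := fun e => K.auv e.symm
  have hm : ∀ i < 6, t i ∈ D G R x := K.circ.mem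
  have cu : ∀ i < 6, ∃ y, Cn G x u (t i) y := fun i hi => cn_exists K.s6.lf K.mu (hm i hi)
  have cv : ∀ i < 6, ∃ y, Cn G x v (t i) y := fun i hi => cn_exists K.s6.lf K.mv (hm i hi)
  have ut4 : ¬ G.Adj u (t 4) := fun e => Fu.w.2.1 ⟨ut1, e⟩
  have vt4 : ¬ G.Adj v (t 4) := fun e => Fv.w.2.1 ⟨vt1, e⟩
  obtain ⟨p, hp⟩ := cu 4 (by omega)
  obtain ⟨q, hq⟩ := cv 4 (by omega)
  obtain ⟨g3, hg3⟩ := cu 3 (by omega)
  obtain ⟨g5, hg5⟩ := cu 5 (by omega)
  obtain ⟨h3, hh3⟩ := cv 3 (by omega)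
  obtain ⟨h5, hh5⟩ := cv 5 (by omega)
  have up := cn_adj hp ut4
  have vq := cn_adj hq vt4
  have pv : ¬ G.Adj v p := bad_no b4 hp auv'
  rcases conn C Fu Fv K.nuv K.auv auv' ut1 vt1 b4 hp hh3 hh5 with e | e <;>
    rcases conn C Fv Fu K.nuv.symm auv' K.auv vt1 ut1 (Bad.swap b4) hq hg3 hg5 with e' | e' <;>
    rw [e] at up pv <;> rw [e'] at vq
  · exact pv vq
  · exact main K ut1 vt1 b4 up vq
  · exact main (swap K) vt1 ut1 (Bad.swap b4) vq up
  · exact pv vq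

end Pool.Agent.H84.RCQ.K6F
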