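import Pool.Agent.H84.RCQ.Tool

set_option autoImplicit false

namespace Pool.Agent.H84.RCQ.Tool

open Pool.Agent.H39.RC Pool.Agent.H6.RCQ
open Classical

variable {V : Type} {G : SimpleGraph V}

/-- all facts on the five neighbours in usable form -/
structure C5 (G : SimpleGraph V) (x t0 t1 t2 t3 t4 : V) : Prop where
  k33 : ¬ HasMinor G (completeBipartiteGraph (Fin 3) (Fin 3))
  a0 : G.Adj x t0
  a1 : G.Adj x t1
  a2 : G.Adj x t2
  a3 : G.Adj x t3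
  a4 : G.Adj x t4
  n0 : x ≠ t0
  n1 : x ≠ t1
  n2 : x ≠ t2
  n3 : x ≠ t3
  n4 : x ≠ t4
  n01 : t0 ≠ t1
  n02 : t0 ≠ t2
  n03 : t0 ≠ t3
  n04 : t0 ≠ t4
  n12 : t1 ≠ t2
  n13 : t1 ≠ t3
  n14 : t1 ≠ t4
  n23 : t2 ≠ t3
  n24 : t2 ≠ t4
  n34 : t3 ≠ t4
  e02 : ¬ G.Adj t0 t2
  e20 : ¬ G.Adj t2 t0
  e03 : ¬ G.Adj t0 t3
  e30 : ¬ G.Adj t3 t0
  e13 : ¬ G.Adj t1 t3
  e31 : ¬ G.Adj t3 t1
  e14 : ¬ G.Adj t1 t4
  e41 : ¬ G.Adj t4 t1
  e24 : ¬ G.Adj t2 t4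
  e42 : ¬ G.Adj t4 t2
  w : ∀ h, h ≠ x → h ≠ t0 → h ≠ t1 → h ≠ t2 → h ≠ t3 → h ≠ t4 →
    ¬ (G.Adj h t0 ∧ G.Adj h t2) ∧ ¬ (G.Adj h t0 ∧ G.Adj h t3) ∧ ¬ (G.Adj h t1 ∧ G.Adj h t3) ∧
    ¬ (G.Adj h t1 ∧ G.Adj h t4) ∧ ¬ (G.Adj h t2 ∧ G.Adj h t4)
  r0123 : Cr G x t0 t1 t2 t3
  r0124 : Cr G x t0 t1 t2 t4
  r0134 : Cr G x t0 t1 t3 t4
  r0234 : Cr G x t0 t2 t3 t4
  r1234 : Cr G x t1 t2 t3 t4

lemma d_eq {R : Finset V} {x : V} {t : ℕ → V} (h : Circ G x (D G R x) 5 t) (d : V)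
    (hd : d ∈ D G R x) : d = t 0 ∨ d = t 1 ∨ d = t 2 ∨ d = t 3 ∨ d = t 4 := by
  obtain ⟨i, hi, rfl⟩ := h.all d hd
  interval_cases i <;> simp

lemma c5_of {R : Finset V} {x : V} {t : ℕ → V} (h : W5 G R x t) :
    C5 G x (t 0) (t 1) (t 2) (t 3) (t 4) := by
  have hm : ∀ i < 5, G.Adj x (t i) := by
    intro i hi
    have := h.circ.mem i hi
    unfold D at this
    rw [Finset.mem_filter] at this
    exact this.2
  have hn : ∀ i < 5, ∀ j < 5, i ≠ j → t i ≠ t j := fun i hi j hj hij e =>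
    hij (h.circ.inj i hi j hj e)
  have he : ∀ i < 5, ∀ j < 5, ¬ (j = (i + 1) % 5 ∨ i = (j + 1) % 5) → ¬ G.Adj (t i) (t j) :=
    fun i hi j hj hij e => hij (h.adj i hi j hj e)
  have hw : ∀ h', h' ≠ x → h' ≠ t 0 → h' ≠ t 1 → h' ≠ t 2 → h' ≠ t 3 → h' ≠ t 4 →
      ∀ i < 5, ∀ j < 5, i ≠ j → ¬ (j = (i + 1) % 5 ∨ i = (j + 1) % 5) →
      ¬ (G.Adj h' (t i) ∧ G.Adj h' (t j)) := by
    intro h' hx h0 h1 h2 h3 h4 i hi j hj hij hc ⟨e1, e2⟩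
    have hD : h' ∉ D G R x := by
      intro hd
      rcases d_eq h.circ h' hd with e | e | e | e | e
      · exact h0 e
      · exact h1 e
      · exact h2 e
      · exact h3 e
      · exact h4 e
    obtain ⟨m, hm, hwin⟩ := h.win h' hx hD
    have f1 := hwin i hi e1
    have f2 := hwin j hj e2
    omega
  refine ⟨h.s5.lf.pg.k33, hm 0 (by omega), hm 1 (by omega), hm 2 (by omega), hm 3 (by omega),
    hm 4 (by omega), (hm 0 (by omega)).ne, (hm 1 (by omega)).ne, (hm 2 (by omega)).ne,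
    (hm 3 (by omega)).ne, (hm 4 (by omega)).ne, hn 0 (by omega) 1 (by omega) (by omega),
    hn 0 (by omega) 2 (by omega) (by omega), hn 0 (by omega) 3 (by omega) (by omega),
    hn 0 (by omega) 4 (by omega) (by omega), hn 1 (by omega) 2 (by omega) (by omega),
    hn 1 (by omega) 3 (by omega) (by omega), hn 1 (by omega) 4 (by omega) (by omega),
    hn 2 (by omega) 3 (by omega) (by omega), hn 2 (by omega) 4 (by omega) (by omega),
    hn 3 (by omega) 4 (by omega) (by omega), he 0 (by omega) 2 (by omega) (by omega),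
    he 2 (by omega) 0 (by omega) (by omega), he 0 (by omega) 3 (by omega) (by omega),
    he 3 (by omega) 0 (by omega) (by omega), he 1 (by omega) 3 (by omega) (by omega),
    he 3 (by omega) 1 (by omega) (by omega), he 1 (by omega) 4 (by omega) (by omega),
    he 4 (by omega) 1 (by omega) (by omega), he 2 (by omega) 4 (by omega) (by omega),
    he 4 (by omega) 2 (by omega) (by omega), ?_,
    h.circ.cr 0 1 2 3 (by omega) (by omega) (by omega) (by omega),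
    h.circ.cr 0 1 2 4 (by omega) (by omega) (by omega) (by omega),
    h.circ.cr 0 1 3 4 (by omega) (by omega) (by omega) (by omega),
    h.circ.cr 0 2 3 4 (by omega) (by omega) (by omega) (by omega),
    h.circ.cr 1 2 3 4 (by omega) (by omega) (by omega) (by omega)⟩
  intro h' hx h0 h1 h2 h3 h4
  exact ⟨hw h' hx h0 h1 h2 h3 h4 0 (by omega) 2 (by omega) (by omega) (by omega),
    hw h' hx h0 h1 h2 h3 h4 0 (by omega) 3 (by omega) (by omega) (by omega),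
    hw h' hx h0 h1 h2 h3 h4 1 (by omega) 3 (by omega) (by omega) (by omega),
    hw h' hx h0 h1 h2 h3 h4 1 (by omega) 4 (by omega) (by omega) (by omega),
    hw h' hx h0 h1 h2 h3 h4 2 (by omega) 4 (by omega) (by omega) (by omega)⟩

/-- facts on a vertex not adjacent to `x` -/
structure Far (G : SimpleGraph V) (x t0 t1 t2 t3 t4 u : V) : Prop where
  nx : u ≠ x
  n0 : u ≠ t0
  n1 : u ≠ t1
  n2 : u ≠ t2
  n3 : u ≠ t3
  n4 : u ≠ t4
  ex : ¬ G.Adj u x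
  ex' : ¬ G.Adj x u
  w : ¬ (G.Adj u t0 ∧ G.Adj u t2) ∧ ¬ (G.Adj u t0 ∧ G.Adj u t3) ∧ ¬ (G.Adj u t1 ∧ G.Adj u t3) ∧
    ¬ (G.Adj u t1 ∧ G.Adj u t4) ∧ ¬ (G.Adj u t2 ∧ G.Adj u t4)

lemma far_of {R : Finset V} {x t0 t1 t2 t3 t4 u : V} (h : C5 G x t0 t1 t2 t3 t4)
    (hu : u ∈ U G R x) : Far G x t0 t1 t2 t3 t4 u := by
  unfold U at hu
  rw [Finset.mem_filter] at hu
  have g : ∀ t, G.Adj x t → u ≠ t := by
    rintro t ht rfl
    exact hu.2.2 ht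
  exact ⟨hu.2.1, g _ h.a0, g _ h.a1, g _ h.a2, g _ h.a3, g _ h.a4, fun e => hu.2.2 e.symm,
    hu.2.2, h.w u hu.2.1 (g _ h.a0) (g _ h.a1) (g _ h.a2) (g _ h.a3) (g _ h.a4)⟩

end Pool.Agent.H84.RCQ.Tool
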