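import Pool.Agent.H84.RCQ.Tool

set_option autoImplicit false

namespace Pool.Agent.H84.RCQ.Tool

open Pool.Agent.H39.RC Pool.Agent.H6.RCQ
open Classical

variable {V : Type} {G : SimpleGraph V}

/-- all facts on the six neighbours in usable form -/
structure C6 (G : SimpleGraph V) (x t0 t1 t2 t3 t4 t5 : V) : Prop where
  k33 : ¬ HasMinor G (completeBipartiteGraph (Fin 3) (Fin 3))
  a0 : G.Adj x t0
  a1 : G.Adj x t1
  a2 : G.Adj x t2
  a3 : G.Adj x t3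
  a4 : G.Adj x t4
  a5 : G.Adj x t5
  n0 : x ≠ t0
  n1 : x ≠ t1
  n2 : x ≠ t2
  n3 : x ≠ t3
  n4 : x ≠ t4
  n5 : x ≠ t5
  n01 : t0 ≠ t1
  n02 : t0 ≠ t2
  n03 : t0 ≠ t3
  n04 : t0 ≠ t4
  n05 : t0 ≠ t5
  n12 : t1 ≠ t2
  n13 : t1 ≠ t3
  n14 : t1 ≠ t4
  n15 : t1 ≠ t5
  n23 : t2 ≠ t3
  n24 : t2 ≠ t4
  n25 : t2 ≠ t5
  n34 : t3 ≠ t4
  n35 : t3 ≠ t5
  n45 : t4 ≠ t5
  e02 : ¬ G.Adj t0 t2
  e20 : ¬ G.Adj t2 t0
  e03 : ¬ G.Adj t0 t3
  e30 : ¬ G.Adj t3 t0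
  e04 : ¬ G.Adj t0 t4
  e40 : ¬ G.Adj t4 t0
  e13 : ¬ G.Adj t1 t3
  e31 : ¬ G.Adj t3 t1
  e14 : ¬ G.Adj t1 t4
  e41 : ¬ G.Adj t4 t1
  e15 : ¬ G.Adj t1 t5
  e51 : ¬ G.Adj t5 t1
  e24 : ¬ G.Adj t2 t4
  e42 : ¬ G.Adj t4 t2
  e25 : ¬ G.Adj t2 t5
  e52 : ¬ G.Adj t5 t2
  e35 : ¬ G.Adj t3 t5
  e53 : ¬ G.Adj t5 t3
  w : ∀ h, h ≠ x → h ≠ t0 → h ≠ t1 → h ≠ t2 → h ≠ t3 → h ≠ t4 → h ≠ t5 →
    ¬ (G.Adj h t0 ∧ G.Adj h t3) ∧ ¬ (G.Adj h t1 ∧ G.Adj h t4) ∧ ¬ (G.Adj h t2 ∧ G.Adj h t5) ∧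
    ¬ (G.Adj h t0 ∧ G.Adj h t2 ∧ G.Adj h t4) ∧ ¬ (G.Adj h t1 ∧ G.Adj h t3 ∧ G.Adj h t5)
  r0123 : Cr G x t0 t1 t2 t3
  r0124 : Cr G x t0 t1 t2 t4
  r0125 : Cr G x t0 t1 t2 t5
  r0134 : Cr G x t0 t1 t3 t4
  r0135 : Cr G x t0 t1 t3 t5
  r0145 : Cr G x t0 t1 t4 t5
  r0234 : Cr G x t0 t2 t3 t4
  r0235 : Cr G x t0 t2 t3 t5
  r0245 : Cr G x t0 t2 t4 t5
  r0345 : Cr G x t0 t3 t4 t5
  r1234 : Cr G x t1 t2 t3 t4
  r1235 : Cr G x t1 t2 t3 t5
  r1245 : Cr G x t1 t2 t4 t5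
  r1345 : Cr G x t1 t3 t4 t5
  r2345 : Cr G x t2 t3 t4 t5

lemma d6_eq {R : Finset V} {x : V} {t : ℕ → V} (h : Circ G x (D G R x) 6 t) (d : V)
    (hd : d ∈ D G R x) : d = t 0 ∨ d = t 1 ∨ d = t 2 ∨ d = t 3 ∨ d = t 4 ∨ d = t 5 := by
  obtain ⟨i, hi, rfl⟩ := h.all d hd
  interval_cases i <;> simp

lemma not_mem_d6 {R : Finset V} {x : V} {t : ℕ → V} (h : Circ G x (D G R x) 6 t) {d : V}
    (h0 : d ≠ t 0) (h1 : d ≠ t 1) (h2 : d ≠ t 2) (h3 : d ≠ t 3) (h4 : d ≠ t 4) (h5 : d ≠ t 5) :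
    d ∉ D G R x := by
  intro hd
  rcases d6_eq h d hd with e | e | e | e | e | e
  · exact h0 e
  · exact h1 e
  · exact h2 e
  · exact h3 e
  · exact h4 e
  · exact h5 e

lemma c6_of {R : Finset V} {x : V} {t : ℕ → V} (h : W6 G R x t) :
    C6 G x (t 0) (t 1) (t 2) (t 3) (t 4) (t 5) := by
  have hm : ∀ i < 6, G.Adj x (t i) := by
    intro i hi
    have := h.circ.mem i hi
    unfold D at this
    rw [Finset.mem_filter] at this
    exact this.2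
  have hn : ∀ i < 6, ∀ j < 6, i ≠ j → t i ≠ t j := fun i hi j hj hij e =>
    hij (h.circ.inj i hi j hj e)
  have he : ∀ i < 6, ∀ j < 6, ¬ (j = (i + 1) % 6 ∨ i = (j + 1) % 6) → ¬ G.Adj (t i) (t j) :=
    fun i hi j hj hij e => hij (h.adj i hi j hj e)
  have hw : ∀ h', h' ≠ x → h' ≠ t 0 → h' ≠ t 1 → h' ≠ t 2 → h' ≠ t 3 → h' ≠ t 4 → h' ≠ t 5 →
      ∃ m < 6, ∀ i < 6, G.Adj h' (t i) → i = m ∨ i = (m + 1) % 6 ∨ i = (m + 2) % 6 := by
    intro h' hx h0 h1 h2 h3 h4 h5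
    exact h.win h' hx (not_mem_d6 h.circ h0 h1 h2 h3 h4 h5)
  refine ⟨h.s6.lf.pg.k33, hm 0 (by omega),
    hm 1 (by omega),
    hm 2 (by omega),
    hm 3 (by omega),
    hm 4 (by omega),
    hm 5 (by omega),
    (hm 0 (by omega)).ne,
    (hm 1 (by omega)).ne,
    (hm 2 (by omega)).ne,
    (hm 3 (by omega)).ne,
    (hm 4 (by omega)).ne,
    (hm 5 (by omega)).ne,
    hn 0 (by omega) 1 (by omega) (by omega),
    hn 0 (by omega) 2 (by omega) (by omega),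
    hn 0 (by omega) 3 (by omega) (by omega),
    hn 0 (by omega) 4 (by omega) (by omega),
    hn 0 (by omega) 5 (by omega) (by omega),
    hn 1 (by omega) 2 (by omega) (by omega),
    hn 1 (by omega) 3 (by omega) (by omega),
    hn 1 (by omega) 4 (by omega) (by omega),
    hn 1 (by omega) 5 (by omega) (by omega),
    hn 2 (by omega) 3 (by omega) (by omega),
    hn 2 (by omega) 4 (by omega) (by omega),
    hn 2 (by omega) 5 (by omega) (by omega),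
    hn 3 (by omega) 4 (by omega) (by omega),
    hn 3 (by omega) 5 (by omega) (by omega),
    hn 4 (by omega) 5 (by omega) (by omega),
    he 0 (by omega) 2 (by omega) (by omega),
    he 2 (by omega) 0 (by omega) (by omega),
    he 0 (by omega) 3 (by omega) (by omega),
    he 3 (by omega) 0 (by omega) (by omega),
    he 0 (by omega) 4 (by omega) (by omega),
    he 4 (by omega) 0 (by omega) (by omega),
    he 1 (by omega) 3 (by omega) (by omega),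
    he 3 (by omega) 1 (by omega) (by omega),
    he 1 (by omega) 4 (by omega) (by omega),
    he 4 (by omega) 1 (by omega) (by omega),
    he 1 (by omega) 5 (by omega) (by omega),
    he 5 (by omega) 1 (by omega) (by omega),
    he 2 (by omega) 4 (by omega) (by omega),
    he 4 (by omega) 2 (by omega) (by omega),
    he 2 (by omega) 5 (by omega) (by omega),
    he 5 (by omega) 2 (by omega) (by omega),
    he 3 (by omega) 5 (by omega) (by omega),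
    he 5 (by omega) 3 (by omega) (by omega),
    ?_,
    h.circ.cr 0 1 2 3 (by omega) (by omega) (by omega) (by omega),
    h.circ.cr 0 1 2 4 (by omega) (by omega) (by omega) (by omega),
    h.circ.cr 0 1 2 5 (by omega) (by omega) (by omega) (by omega),
    h.circ.cr 0 1 3 4 (by omega) (by omega) (by omega) (by omega),
    h.circ.cr 0 1 3 5 (by omega) (by omega) (by omega) (by omega),
    h.circ.cr 0 1 4 5 (by omega) (by omega) (by omega) (by omega),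
    h.circ.cr 0 2 3 4 (by omega) (by omega) (by omega) (by omega),
    h.circ.cr 0 2 3 5 (by omega) (by omega) (by omega) (by omega),
    h.circ.cr 0 2 4 5 (by omega) (by omega) (by omega) (by omega),
    h.circ.cr 0 3 4 5 (by omega) (by omega) (by omega) (by omega),
    h.circ.cr 1 2 3 4 (by omega) (by omega) (by omega) (by omega),
    h.circ.cr 1 2 3 5 (by omega) (by omega) (by omega) (by omega),
    h.circ.cr 1 2 4 5 (by omega) (by omega) (by omega) (by omega),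
    h.circ.cr 1 3 4 5 (by omega) (by omega) (by omega) (by omega),
    h.circ.cr 2 3 4 5 (by omega) (by omega) (by omega) (by omega)⟩
  intro h' hx h0 h1 h2 h3 h4 h5
  obtain ⟨m, hm6, hwin⟩ := hw h' hx h0 h1 h2 h3 h4 h5
  refine ⟨?_, ?_, ?_, ?_, ?_⟩
  · rintro ⟨e1, e2⟩
    have f1 := hwin 0 (by omega) e1
    have f2 := hwin 3 (by omega) e2
    omega
  · rintro ⟨e1, e2⟩
    have f1 := hwin 1 (by omega) e1
    have f2 := hwin 4 (by omega) e2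
    omega
  · rintro ⟨e1, e2⟩
    have f1 := hwin 2 (by omega) e1
    have f2 := hwin 5 (by omega) e2
    omega
  · rintro ⟨e1, e2, e3⟩
    have f1 := hwin 0 (by omega) e1
    have f2 := hwin 2 (by omega) e2
    have f3 := hwin 4 (by omega) e3
    omega
  · rintro ⟨e1, e2, e3⟩
    have f1 := hwin 1 (by omega) e1
    have f2 := hwin 3 (by omega) e2
    have f3 := hwin 5 (by omega) e3
    omega

/-- facts on a vertex not adjacent to `x` -/
structure Far6 (G : SimpleGraph V) (x t0 t1 t2 t3 t4 t5 u : V) : Prop where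
  nx : u ≠ x
  n0 : u ≠ t0
  n1 : u ≠ t1
  n2 : u ≠ t2
  n3 : u ≠ t3
  n4 : u ≠ t4
  n5 : u ≠ t5
  ex : ¬ G.Adj u x
  ex' : ¬ G.Adj x u
  w : ¬ (G.Adj u t0 ∧ G.Adj u t3) ∧ ¬ (G.Adj u t1 ∧ G.Adj u t4) ∧ ¬ (G.Adj u t2 ∧ G.Adj u t5) ∧
    ¬ (G.Adj u t0 ∧ G.Adj u t2 ∧ G.Adj u t4) ∧ ¬ (G.Adj u t1 ∧ G.Adj u t3 ∧ G.Adj u t5)

lemma far6_of {R : Finset V} {x t0 t1 t2 t3 t4 t5 u : V} (h : C6 G x t0 t1 t2 t3 t4 t5)
    (hu : u ∈ U G R x) : Far6 G x t0 t1 t2 t3 t4 t5 u := by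
  unfold U at hu
  rw [Finset.mem_filter] at hu
  have g : ∀ t, G.Adj x t → u ≠ t := by
    rintro t ht rfl
    exact hu.2.2 ht
  exact ⟨hu.2.1, g _ h.a0, g _ h.a1, g _ h.a2, g _ h.a3, g _ h.a4, g _ h.a5,
    fun e => hu.2.2 e.symm, hu.2.2,
    h.w u hu.2.1 (g _ h.a0) (g _ h.a1) (g _ h.a2) (g _ h.a3) (g _ h.a4) (g _ h.a5)⟩

/-- there are at least nine non-neighbours of a vertex with six neighbours -/
lemma card_u6 {R : Finset V} {x : V} {t : ℕ → V} (h : W6 G R x t) : 9 ≤ (U G R x).card := by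
  have h1 : (D G R x).card ≤ 6 := h.s6.deg x
  have h2 : R ⊆ U G R x ∪ (D G R x ∪ {x}) := by
    intro v hv
    unfold U D
    simp only [Finset.mem_union, Finset.mem_filter, Finset.mem_singleton]
    tauto
  have h3 := (Finset.card_le_card h2).trans (Finset.card_union_le _ _)
  have h4 := Finset.card_union_le (D G R x) {x}
  rw [Finset.card_singleton] at h4
  rw [h.s6.card] at h3
  omega

end Pool.Agent.H84.RCQ.Tool
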