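import Pool.Agent.H6.RCQ.Stmts4

/-!
# Tools for the modules on degrees five and six
-/

set_option autoImplicit false

namespace Pool.Agent.H84.RCQ.Tool

open Pool.Agent.H39.RC Pool.Agent.H6.RCQ
open Classical

variable {V : Type} {G : SimpleGraph V}

/-- a star is connected -/
lemma con_star {u a b c : V} (h1 : a = u ∨ G.Adj u a) (h2 : b = u ∨ G.Adj u b)
    (h3 : c = u ∨ G.Adj u c) : Con G {u, a, b, c} := by
  have k1 : Con G {u, c} := con_pair (by rcases h3 with h | h; exact Or.inl h.symm; exact Or.inr h)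
  have k2 : Con G {u, b} := con_pair (by rcases h2 with h | h; exact Or.inl h.symm; exact Or.inr h)
  have k3 : Con G {u, a} := con_pair (by rcases h1 with h | h; exact Or.inl h.symm; exact Or.inr h)
  have k4 := (k3.union k2 (v := u) (by simp) (by simp)).union k1 (v := u) (by simp) (by simp)
  have : ({u, a} ∪ {u, b} ∪ {u, c} : Set V) = {u, a, b, c} := by
    ext z; simp only [Set.mem_union, Set.mem_insert_iff, Set.mem_singleton_iff]; tauto
  rwa [this] at k4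

/-- a path is connected -/
lemma con_path {a b c d e : V} (h1 : a = b ∨ G.Adj a b) (h2 : b = c ∨ G.Adj b c)
    (h3 : c = d ∨ G.Adj c d) (h4 : d = e ∨ G.Adj d e) : Con G {a, b, c, d, e} := by
  have k1 : Con G {a, b} := con_pair h1
  have k2 : Con G {b, c} := con_pair h2
  have k3 : Con G {c, d} := con_pair h3
  have k4 : Con G {d, e} := con_pair h4
  have k5 := ((k1.union k2 (v := b) (by simp) (by simp)).union k3 (v := c) (by simp)
    (by simp)).union k4 (v := d) (by simp) (by simp)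
  have : ({a, b} ∪ {b, c} ∪ {c, d} ∪ {d, e} : Set V) = {a, b, c, d, e} := by
    ext z; simp only [Set.mem_union, Set.mem_insert_iff, Set.mem_singleton_iff]; tauto
  rwa [this] at k5

/-- two paths joining crossing pairs meet -/
lemma meet {x a b c d p q r p' q' r' : V} (h : Cr G x a b c d)
    (h1 : a = p ∨ G.Adj a p) (h2 : p = q ∨ G.Adj p q) (h3 : q = r ∨ G.Adj q r)
    (h4 : r = c ∨ G.Adj r c) (h1' : b = p' ∨ G.Adj b p') (h2' : p' = q' ∨ G.Adj p' q')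
    (h3' : q' = r' ∨ G.Adj q' r') (h4' : r' = d ∨ G.Adj r' d)
    (x1 : x ≠ a) (x2 : x ≠ b) (x3 : x ≠ c) (x4 : x ≠ d) (x5 : x ≠ p) (x6 : x ≠ q) (x7 : x ≠ r)
    (x8 : x ≠ p') (x9 : x ≠ q') (x10 : x ≠ r') :
    ∃ z, (z = a ∨ z = p ∨ z = q ∨ z = r ∨ z = c) ∧ (z = b ∨ z = p' ∨ z = q' ∨ z = r' ∨ z = d) := by
  obtain ⟨z, hz1, hz2⟩ := h {a, p, q, r, c} {b, p', q', r', d} (con_path h1 h2 h3 h4)
    (con_path h1' h2' h3' h4') (by simp [x1, x5, x6, x7, x3]) (by simp [x2, x8, x9, x10, x4])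
    (by simp) (by simp) (by simp) (by simp)
  exact ⟨z, by simpa using hz1, by simpa using hz2⟩

/-- the minor used: `{x}`, two stars, two vertices and a pair -/
lemma k33x (hG : ¬ HasMinor G (completeBipartiteGraph (Fin 3) (Fin 3)))
    {x u a1 a2 a3 v b1 b2 b3 c0 c1 c2 d : V}
    (su : ∀ a ∈ [a1, a2, a3], a = u ∨ G.Adj u a) (sv : ∀ b ∈ [b1, b2, b3], b = v ∨ G.Adj v b)
    (sc : c2 = d ∨ G.Adj c2 d)
    (n1 : ∀ a ∈ [u, a1, a2, a3], ∀ b ∈ [v, b1, b2, b3], a ≠ b)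
    (n2 : ∀ a ∈ [u, a1, a2, a3], ∀ b ∈ [x, c0, c1, c2, d], a ≠ b)
    (n3 : ∀ a ∈ [v, b1, b2, b3], ∀ b ∈ [x, c0, c1, c2, d], a ≠ b)
    (n4 : ∀ b ∈ [x, c0, c1], ∀ c ∈ [c2, d], b ≠ c) (n5 : c0 ≠ c1)
    (x0 : G.Adj x c0) (x1 : G.Adj x c1) (x2 : G.Adj x c2)
    (u0 : ∃ a ∈ [u, a1, a2, a3], G.Adj a c0) (u1 : ∃ a ∈ [u, a1, a2, a3], G.Adj a c1)
    (u2 : ∃ a ∈ [u, a1, a2, a3], ∃ c ∈ [c2, d], G.Adj a c)
    (v0 : ∃ a ∈ [v, b1, b2, b3], G.Adj a c0) (v1 : ∃ a ∈ [v, b1, b2, b3], G.Adj a c1)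
    (v2 : ∃ a ∈ [v, b1, b2, b3], ∃ c ∈ [c2, d], G.Adj a c) : False := by
  apply hG
  have xc0 : x ≠ c0 := x0.ne
  have xc1 : x ≠ c1 := x1.ne
  simp only [List.mem_cons, List.not_mem_nil, or_false] at su sv n1 n2 n3 n4 u0 u1 u2 v0 v1 v2
  refine hasMinor_k33 ![{x}, {u, a1, a2, a3}, {v, b1, b2, b3}] ![{c0}, {c1}, {c2, d}]
    ?_ ?_ ?_ ?_ ?_ ?_
  · intro i
    fin_cases i
    · exact con_single x
    · exact con_star (su _ (Or.inl rfl)) (su _ (Or.inr (Or.inl rfl)))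
        (su _ (Or.inr (Or.inr rfl)))
    · exact con_star (sv _ (Or.inl rfl)) (sv _ (Or.inr (Or.inl rfl)))
        (sv _ (Or.inr (Or.inr rfl)))
  · intro i
    fin_cases i
    · exact con_single c0
    · exact con_single c1
    · exact con_pair sc
  · intro i j hij
    rw [Set.disjoint_left]
    intro z hz hz'
    fin_cases i <;> fin_cases j <;> simp at hij hz hz'
    · exact n2 z hz' x (by simp) hz
    · exact n3 z hz' x (by simp) hz
    · exact n1 z hz z hz' rfl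
  · intro i j hij
    rw [Set.disjoint_left]
    intro z hz hz'
    fin_cases i <;> fin_cases j <;> simp at hij hz hz'
    · exact n5 (hz.symm.trans hz')
    · exact n4 z (Or.inr (Or.inl hz)) z hz' rfl
    · exact n4 z (Or.inr (Or.inr hz)) z hz' rfl
  · intro i j
    rw [Set.disjoint_left]
    intro z hz hz'
    fin_cases i <;> fin_cases j <;> simp at hz hz'
    · exact xc0 (hz.symm.trans hz')
    · exact xc1 (hz.symm.trans hz')
    · exact n4 z (Or.inl hz) z hz' rfl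
    · exact n2 z hz z (Or.inr (Or.inl hz')) rfl
    · exact n2 z hz z (Or.inr (Or.inr (Or.inl hz'))) rfl
    · exact n2 z hz z (Or.inr (Or.inr (Or.inr hz'))) rfl
    · exact n3 z hz z (Or.inr (Or.inl hz')) rfl
    · exact n3 z hz z (Or.inr (Or.inr (Or.inl hz'))) rfl
    · exact n3 z hz z (Or.inr (Or.inr (Or.inr hz'))) rfl
  · intro i j
    fin_cases i <;> fin_cases j
    · exact ⟨x, rfl, c0, rfl, x0⟩
    · exact ⟨x, rfl, c1, rfl, x1⟩
    · exact ⟨x, rfl, c2, Or.inl rfl, x2⟩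
    · obtain ⟨a, ha, h⟩ := u0
      exact ⟨a, ha, c0, rfl, h⟩
    · obtain ⟨a, ha, h⟩ := u1
      exact ⟨a, ha, c1, rfl, h⟩
    · obtain ⟨a, ha, c, hc, h⟩ := u2
      exact ⟨a, ha, c, hc, h⟩
    · obtain ⟨a, ha, h⟩ := v0
      exact ⟨a, ha, c0, rfl, h⟩
    · obtain ⟨a, ha, h⟩ := v1
      exact ⟨a, ha, c1, rfl, h⟩
    · obtain ⟨a, ha, c, hc, h⟩ := v2
      exact ⟨a, ha, c, hc, h⟩

/-- two paths joining crossing pairs are not disjoint -/
lemma meetF {x a b c d p q r p' q' r' : V} (h : Cr G x a b c d)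
    (h1 : a = p ∨ G.Adj a p) (h2 : p = q ∨ G.Adj p q) (h3 : q = r ∨ G.Adj q r)
    (h4 : r = c ∨ G.Adj r c) (h1' : b = p' ∨ G.Adj b p') (h2' : p' = q' ∨ G.Adj p' q')
    (h3' : q' = r' ∨ G.Adj q' r') (h4' : r' = d ∨ G.Adj r' d)
    (n1 : ∀ z ∈ [x], ∀ z' ∈ [a, p, q, r, c, b, p', q', r', d], z ≠ z')
    (n2 : ∀ z ∈ [a, p, q, r, c], ∀ z' ∈ [b, p', q', r', d], z ≠ z') : False := by
  simp only [List.mem_cons, List.not_mem_nil, or_false] at n1 n2
  obtain ⟨z, h1, h2⟩ := meet h h1 h2 h3 h4 h1' h2' h3' h4' (n1 x rfl a (by simp))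
    (n1 x rfl b (by simp)) (n1 x rfl c (by simp)) (n1 x rfl d (by simp)) (n1 x rfl p (by simp))
    (n1 x rfl q (by simp)) (n1 x rfl r (by simp)) (n1 x rfl p' (by simp))
    (n1 x rfl q' (by simp)) (n1 x rfl r' (by simp))
  exact n2 z h1 z h2 rfl

/-- `y` connects `w` to `t` -/
structure Cn (G : SimpleGraph V) (x w t y : V) : Prop where
  nx : y ≠ x
  nt : y ≠ t
  c : y = w ∨ G.Adj w y
  c' : y = w ∨ G.Adj y w
  a : G.Adj y t
  a' : G.Adj t y

lemma cn_exists {R : Finset V} {x w t : V} (h : Lf G R) (hw : w ∈ U G R x)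
    (ht : t ∈ D G R x) : ∃ y, Cn G x w t y := by
  unfold U at hw
  unfold D at ht
  rw [Finset.mem_filter] at hw ht
  have hne : w ≠ t := by
    rintro rfl
    exact hw.2.2 ht.2
  rcases h.lk w hw.1 t ht.1 hne with h1 | ⟨y, -, h1, h2⟩
  · exact ⟨w, hw.2.1, h1.ne, Or.inl rfl, Or.inl rfl, h1, h1.symm⟩
  · refine ⟨y, ?_, h2.ne, Or.inr h1, Or.inr h1.symm, h2, h2.symm⟩
    rintro rfl
    exact hw.2.2 h1.symm

/-- if `w` is adjacent to `t` it connects itself to `t` -/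
lemma cn_self {x w t : V} (hx : w ≠ x) (h : G.Adj w t) : Cn G x w t w :=
  ⟨hx, h.ne, Or.inl rfl, Or.inl rfl, h, h.symm⟩

lemma l1 {a b v : V} (h : b = v ∨ G.Adj v b) (h1 : a ≠ v) (h2 : ¬ G.Adj v a) : b ≠ a := by
  rintro rfl
  rcases h with h | h
  · exact h1 h
  · exact h2 h

lemma l2 {a s t : V} (h : G.Adj a t) (h' : ¬ G.Adj s t) : a ≠ s := by
  rintro rfl
  exact h' h

lemma bad_no {x u v t p : V} (hb : Bad G x u v t) (h : Cn G x u t p) (hv : ¬ G.Adj v u) :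
    ¬ G.Adj v p := by
  intro hp
  rcases h.c with e | e
  · rw [e] at hp
    exact hv hp
  · exact hb p h.nx e hp (Or.inr h.a)

lemma Bad.swap {x u v t : V} (hb : Bad G x u v t) : Bad G x v u t :=
  fun c h1 h2 h3 => hb c h1 h3 h2

lemma cn_adj {x w t y : V} (h : Cn G x w t y) (hw : ¬ G.Adj w t) : G.Adj w y := by
  rcases h.c with e | e
  · exact absurd (e ▸ h.a) hw
  · exact e

lemma Cn.d {x w t y : V} (h : Cn G x w t y) : w = y ∨ G.Adj w y := h.c.imp_left Eq.symm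

end Pool.Agent.H84.RCQ.Tool
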